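import Mathlib
import Pool.Agent.Work.MP_972ac7_sg.Interface
import Pool.Agent.Work.MP_972ac7_C.Defs

/-!
# Strong spectral gap of the quaternion lattices in `∏ SL2(ℚ_l)`, `l ∣ n` (MP_972ac7_al)
-/

open MeasureTheory
open scoped Quaternion BigOperators ENNReal

namespace TauSN

open TauSG

/-- integral quaternions in `ℍ[R]` -/
def castn (R : Type) [CommRing R] : ℍ[ℤ] →+* ℍ[R] := TauQ.qmap (Int.castRingHom R)

/-- the norm one quaternions `α / d` with `d ≡ 1 (mod 4)` a unit of `R` and `α` in `TauQ.OO` -/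
def G1n (R : Type) [CommRing R] : Subgroup (unitary ℍ[R]) where
  carrier := {x | ∃ (d : ℤ) (α : ℍ[ℤ]), d % 4 = 1 ∧ IsUnit ((d : ℤ) : R) ∧ α ∈ TauQ.OO ∧
    ((d : ℤ) : ℍ[R]) * (x : ℍ[R]) = castn R α}
  one_mem' := ⟨1, 1, by norm_num, by simp, TauQ.OO.one_mem, by simp⟩
  mul_mem' := by
    rintro x x' ⟨d, α, hd, hu, hα, e⟩ ⟨d', α', hd', hu', hα', e'⟩
    refine ⟨d * d', α * α', by rw [Int.mul_emod, hd, hd']; norm_num, by
      rw [Int.cast_mul]; exact hu.mul hu', TauQ.OO.mul_mem hα hα', ?_⟩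
    have hc : ∀ z : ℍ[R], z * ((d' : ℤ) : ℍ[R]) = ((d' : ℤ) : ℍ[R]) * z := fun z =>
      (Int.cast_commute _ z).eq.symm
    rw [map_mul, ← e, ← e', Submonoid.coe_mul, Int.cast_mul, mul_assoc, mul_assoc,
      ← mul_assoc (x : ℍ[R]), hc, mul_assoc]
  inv_mem' := by
    rintro x ⟨d, α, hd, hu, hα, e⟩
    refine ⟨d, star α, hd, hu, TauQ.OO_star hα, ?_⟩
    have hx : ((x⁻¹ : unitary ℍ[R]) : ℍ[R]) = star (x : ℍ[R]) := rfl
    rw [hx, castn, TauQ.qmap_star, ← castn, ← e, star_mul, star_intCast]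
    exact (Int.cast_commute _ _).eq

/-- the map from the norm one quaternions over `R` to `SL2(ℚ_l)` -/
noncomputable def embf {R : Type} [CommRing R] {l : ℕ} [Fact l.Prime] (f : R →+* ℚ_[l])
    {x y : ℤ_[l]} (hxy : IsSpl l x y) :
    unitary ℍ[R] →* Matrix.SpecialLinearGroup (Fin 2) ℚ_[l] :=
  (slQ hxy.coe).comp (unitQ f)

/-- the prime divisors of `n` different from `p` -/
def Pr (n p : ℕ) : Type := {l : ℕ // l.Prime ∧ l ∣ n ∧ l ≠ p}

instance instFactPr {n p : ℕ} (l : Pr n p) : Fact (l.1.Prime) := ⟨l.2.1⟩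

/-- the product of the `SL2(ℚ_l)`, `l ∣ n`, `l ≠ p` -/
abbrev GBn (n p : ℕ) : Type := ∀ l : Pr n p, Matrix.SpecialLinearGroup (Fin 2) ℚ_[l.1]

/-- the product of the `SL2(Z_l)` -/
noncomputable def KBn (n p : ℕ) : Subgroup (GBn n p) := Subgroup.pi Set.univ fun l => KK l.1

/-- the map to the product of the `SL2(ℚ_l)`, `l ∣ n`, `l ≠ p` -/
noncomputable def embB {R : Type} [CommRing R] {n p : ℕ} (f : ∀ l : Pr n p, R →+* ℚ_[l.1])
    {x y : ∀ l : Pr n p, ℤ_[l.1]} (hxy : ∀ l : Pr n p, IsSpl l.1 (x l) (y l)) :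
    G1n R →* GBn n p :=
  Pi.monoidHom fun l => (embf (f l) (hxy l)).comp (G1n R).subtype

end TauSN
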