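import Mathlib
import Pool.Agent.Work.MP_972ac7_sn.Defs

/-!
# Block statements: strong spectral gap of the quaternion lattices in `∏ SL2(ℚ_l)`, `l ∣ n`

Block X is `X.lean` (imports Mathlib, this file, and if wanted files of MP_972ac7_sg),
`namespace TauSN`, theorem `X_thm : N_X` with hypotheses `(h : N_Y)` or `(h : TauSG.S_Y)` of the
blocks it uses. See BLUEPRINT.md.
-/

open MeasureTheory Pool.TFD
open scoped Quaternion BigOperators ENNReal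

namespace TauSN

open TauQ (redM)
open TauO (SS pst uM)
open TauSG

/-- INT: integrality -/
def N_INT : Prop :=
  ∀ (R : Type) [CommRing R] (l : ℕ) [Fact l.Prime] (f : R →+* ℚ_[l]) (x y : ℤ_[l])
    (hxy : IsSpl l x y) (γ : unitary ℍ[R]) (d : ℤ) (α : ℍ[ℤ]), ¬ (l : ℤ) ∣ d →
    ((d : ℤ) : ℍ[R]) * (γ : ℍ[R]) = castn R α → embf f hxy γ ∈ KK l

/-- PAIR: the pairs of letters are in the group -/
def N_PAIR : Prop :=
  ∀ (n r : ℕ), r.Prime → r ≠ 2 → r ∣ n → ∀ (R : Type) [CommRing R]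
    [IsLocalization.Away (n : ℤ) R] (b' b : SS r), ∃ γ : G1n R,
      ((pst r : ℤ) : ℍ[R]) * ((γ : unitary ℍ[R]) : ℍ[R]) = castn R (b'.val * b.val)

/-- COV1: transitivity on the vertices of one tree, with denominators powers of the same prime -/
def N_COV1 : Prop :=
  ∀ (n l : ℕ) [Fact l.Prime], n ≠ 0 → l ≠ 2 → l ∣ n → ∀ (R : Type) [CommRing R]
    [IsLocalization.Away (n : ℤ) R] (f : R →+* ℚ_[l]) (x y : ℤ_[l]) (hxy : IsSpl l x y)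
    (g : Matrix.SpecialLinearGroup (Fin 2) ℚ_[l]), ∃ γ : G1n R,
      (∃ (i : ℕ) (α : ℍ[ℤ]),
        (((pst l) ^ i : ℤ) : ℍ[R]) * ((γ : unitary ℍ[R]) : ℍ[R]) = castn R α) ∧
      ∃ a ∈ KK l, g = a * embf f hxy (γ : unitary ℍ[R])

/-- COV -/
def N_COV : Prop :=
  ∀ (n p : ℕ) [Fact p.Prime], n ≠ 0 → (∀ l : ℕ, l.Prime → l ∣ n → l ≠ 2) → p ∣ n →
    ∀ (R : Type) [CommRing R] [IsLocalization.Away (n : ℤ) R] (f0 : R →+* ℚ_[p]) (x0 y0 : ℤ_[p])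
      (h0 : IsSpl p x0 y0) (f : ∀ l : Pr n p, R →+* ℚ_[l.1]) (x y : ∀ l : Pr n p, ℤ_[l.1])
      (hxy : ∀ l : Pr n p, IsSpl l.1 (x l) (y l))
      (u : Matrix.SpecialLinearGroup (Fin 2) ℚ_[p]) (v : GBn n p),
      ∃ a ∈ KK p, ∃ b ∈ KBn n p, ∃ γ : G1n R, u = a * embf f0 h0 (γ : unitary ℍ[R]) ∧
        v = b * embB f hxy γ

/-- TRIV -/
def N_TRIV : Prop :=
  ∀ (n p : ℕ) [Fact p.Prime], n ≠ 0 → (∀ l : ℕ, l.Prime → l ∣ n → l ≠ 2) → p ∣ n →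
    ∀ (R : Type) [CommRing R] [IsLocalization.Away (n : ℤ) R] (f0 : R →+* ℚ_[p]) (x0 y0 : ℤ_[p])
      (h0 : IsSpl p x0 y0) (f : ∀ l : Pr n p, R →+* ℚ_[l.1]) (x y : ∀ l : Pr n p, ℤ_[l.1])
      (hxy : ∀ l : Pr n p, IsSpl l.1 (x l) (y l)) (γ : G1n R),
      embf f0 h0 (γ : unitary ℍ[R]) ∈ KK p → embB f hxy γ ∈ KBn n p → γ = 1

/-- LEV: the levels of `SL2(Z_l)` are the norm one quaternions modulo `l^R` -/
def N_LEV : Prop :=
  ∀ (l : ℕ) [Fact l.Prime], l ≠ 2 → ∀ (x y : ℤ_[l]) (hxy : IsSpl l x y),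
    ∃ (L : Levels (KK l)) (e : ∀ k, L.Q k ≃* unitary ℍ[ZMod (l ^ k)]),
      ∀ (R : Type) [CommRing R] (f : R →+* ℚ_[l]) (γ : unitary ℍ[R]) (d : ℤ) (α : ℍ[ℤ]),
        ¬ (l : ℤ) ∣ d → ((d : ℤ) : ℍ[R]) * (γ : ℍ[R]) = castn R α →
        ∀ (hm : embf f hxy γ ∈ KK l) (k : ℕ),
          ((d : ℤ) : ℍ[ZMod (l ^ k)]) * (e k (L.ρ k ⟨embf f hxy γ, hm⟩) : ℍ[ZMod (l ^ k)]) =
            redM (l ^ k) α

/-- FULL: strong approximation: the even words in `SS p` are everything modulo `l^k` -/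
def N_FULL : Prop :=
  ∀ p l : ℕ, p.Prime → l.Prime → p ≠ 2 → l ≠ 2 → p ≠ l → ∀ (k : ℕ) [NeZero (l ^ k)]
    (hM : Nat.Coprime p (l ^ k)),
    Subgroup.closure {x | ∃ b' b : SS p, x = uM (l ^ k) hM b' b} = ⊤

/-- GAPA: the gap at all levels of `KK p` for the letters of `q` -/
def N_GAPA : Prop :=
  ∀ (n p q : ℕ) [Fact p.Prime], q.Prime → p ≠ 2 → q ≠ 2 → p ≠ q → q ∣ n →
    ∀ (R : Type) [CommRing R] [IsLocalization.Away (n : ℤ) R] (f : R →+* ℚ_[p]) (x y : ℤ_[p])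
      (hxy : IsSpl p x y), ∃ (L : Levels (KK p)) (c : ℝ) (s : SS q × SS q → G1n R)
      (hs : ∀ i, ((embf f hxy).comp (G1n R).subtype) (s i) ∈ KK p), 0 < c ∧
      ∀ k (φ : L.Q k → ℂ), ∑ z, φ z = 0 →
        c * ∑ z, ‖φ z‖ ^ 2 ≤ ∑ i, ∑ z, ‖φ (z * L.ρ k ⟨_, hs i⟩) - φ z‖ ^ 2

/-- GOU: a subgroup of a product of groups which are virtually `l`-groups for different primes `l`,
with surjective projections, has bounded index -/
def N_GOU : Prop :=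
  ∀ (I : Type) [Fintype I] [DecidableEq I] (v : I → ℕ), (∀ i, (v i).Prime) →
    Function.Injective v → ∀ (Q : I → Type) [∀ i, Group (Q i)] [∀ i, Finite (Q i)]
    (V : ∀ i, Subgroup (Q i)) (c : I → ℕ), (∀ i, (V i).Normal) →
    (∀ i, IsPGroup (v i) (V i)) → (∀ i, (V i).index ≤ c i) →
    ∀ D : Subgroup (∀ i, Q i), (∀ i (x : Q i), ∃ d ∈ D, d i = x) →
      D.index ≤ (∏ i, c i) ^ Fintype.card I

/-- PG: the norm one quaternions modulo `l^k` are virtually `l`-groups, uniformly in `k` -/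
def N_PG : Prop :=
  ∀ l : ℕ, l.Prime → ∃ c : ℕ, ∀ (k : ℕ) [NeZero (l ^ k)],
    ∃ V : Subgroup (unitary ℍ[ZMod (l ^ k)]), V.Normal ∧ IsPGroup l V ∧ V.index ≤ c

lemma mem_KBn {n p : ℕ} (k : KBn n p) (l : Pr n p) : (k : GBn n p) l ∈ KK l.1 :=
  (Subgroup.mem_pi (Set.univ : Set (Pr n p))).1 k.2 l (Set.mem_univ l)

/-- LEVP: the levels of the product -/
def N_LEVP : Prop :=
  ∀ (n p : ℕ), n ≠ 0 → ∀ L : ∀ l : Pr n p, Levels (KK l.1),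
    ∃ (LB : Levels (KBn n p)) (r : ℕ → Pr n p → ℕ)
      (e : ∀ k, LB.Q k ≃* (∀ l : Pr n p, (L l).Q (r k l))),
      ∀ (k : ℕ) (z : KBn n p) (l : Pr n p),
        e k (LB.ρ k z) l = (L l).ρ (r k l) ⟨(z : GBn n p) l, mem_KBn z l⟩

/-- IDXB: bounded index at all levels of the product -/
def N_IDXB : Prop :=
  ∀ (n p : ℕ) [Fact p.Prime], n ≠ 0 → (∀ l : ℕ, l.Prime → l ∣ n → l ≠ 2) → p ∣ n →
    ∀ (R : Type) [CommRing R] [IsLocalization.Away (n : ℤ) R]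
      (f : ∀ l : Pr n p, R →+* ℚ_[l.1]) (x y : ∀ l : Pr n p, ℤ_[l.1])
      (hxy : ∀ l : Pr n p, IsSpl l.1 (x l) (y l)),
      ∃ (LB : Levels (KBn n p)) (O : ℕ), ∀ k,
        ((((embB f hxy).range).subgroupOf (KBn n p)).map (LB.ρ k)).index ≤ O

/-- TOP: topology of the product -/
def N_TOP : Prop :=
  ∀ (n p : ℕ), n ≠ 0 → Finite (Pr n p) ∧ LocallyCompactSpace (GBn n p) ∧
    SecondCountableTopology (GBn n p) ∧ T2Space (GBn n p) ∧ BorelSpace (GBn n p) ∧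
    IsCompact (KBn n p : Set (GBn n p)) ∧ IsOpen (KBn n p : Set (GBn n p))

/-- UNI: the product is unimodular -/
def N_UNI : Prop :=
  ∀ (n p : ℕ), n ≠ 0 → ∀ μ : Measure (GBn n p), μ.IsHaarMeasure → μ.IsMulRightInvariant

/-- NOFD for the product -/
def N_NOFD : Prop := ∀ (n p : ℕ), n ≠ 0 → NoFD (GBn n p)

/-- CTR: `SL2(ℚ_l)` and the product are generated by contractible elements -/
def N_CTR : Prop :=
  (∀ (l : ℕ) [Fact l.Prime], Pool.TC.ContrGen (Matrix.SpecialLinearGroup (Fin 2) ℚ_[l])) ∧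
  ∀ (n p : ℕ), n ≠ 0 → Pool.TC.ContrGen (GBn n p)

/-- FIX: finite index in the norm one group -/
def N_FIX : Prop :=
  ∀ (n : ℕ), (∀ l : ℕ, l.Prime → l ∣ n → l ≠ 2) → ∀ (R : Type) [CommRing R]
    [IsLocalization.Away (n : ℤ) R], (G1n R).FiniteIndex

/-- HSG: `G1n R`, `R = ℤ[1/n]`, is a lattice in `SL2(ℚ_p) × ∏ SL2(ℚ_l)` with a strong gap. -/
def N_HSG : Prop :=
  ∀ (n p : ℕ) [Fact p.Prime], n ≠ 0 → (∀ l : ℕ, l.Prime → l ∣ n → l ≠ 2) → p ∣ n →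
    (∃ q : ℕ, q.Prime ∧ q ∣ n ∧ q ≠ p) → ∀ (R : Type) [CommRing R]
    [IsLocalization.Away (n : ℤ) R],
    ∃ (T : Trans (Matrix.SpecialLinearGroup (Fin 2) ℚ_[p]) (GBn n p) (G1n R))
      (m : Measure ((Matrix.SpecialLinearGroup (Fin 2) ℚ_[p] × GBn n p) ⧸ T.Γ)),
      Function.Injective (T.α.prod T.β) ∧ DiscreteTopology T.Γ ∧ IsProbabilityMeasure m ∧
      (∀ g : Matrix.SpecialLinearGroup (Fin 2) ℚ_[p] × GBn n p,
        MeasurePreserving (fun x => g • x) m m) ∧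
      DenseRange T.α ∧ DenseRange T.β ∧ StrongGap T.Γ m

end TauSN
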