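import Mathlib
import Pool.Agent.Work.MP_972ac7_sn.Interface

/-! # MP_972ac7_al, block COV (general n): the lattice is transitive on the products of vertices
(helper75) -/

set_option autoImplicit false

open MeasureTheory Pool.TFD
open scoped Quaternion BigOperators ENNReal

namespace TauSN

open TauQ (redM)
open TauO (SS pst uM)
open TauSG

lemma COV_ndvd {p q : ℕ} (hp : p.Prime) (hq : q.Prime) (hpq : p ≠ q) (j : ℕ) :
    ¬ (p : ℤ) ∣ (pst q) ^ j := by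
  intro h1
  have hp' : Prime (p : ℤ) := Nat.prime_iff_prime_int.1 hp
  have h2 := hp'.dvd_of_dvd_pow h1
  have h3 : (p : ℤ) ∣ (q : ℤ) := by
    have h4 : pst q = (q : ℤ) ∨ pst q = -(q : ℤ) := by
      unfold pst TauO.eps
      split_ifs
      · left; ring
      · right; ring
    rcases h4 with h4 | h4
    · rwa [h4] at h2
    · rw [h4] at h2
      exact (dvd_neg).1 h2
  have h5 : p ∣ q := by exact_mod_cast h3
  exact hpq ((Nat.prime_dvd_prime_iff_eq hp hq).1 h5)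

lemma COV_fin (n p : ℕ) (hn : n ≠ 0) : Finite (Pr n p) := by
  refine Finite.of_injective
    (fun l : Pr n p => (⟨l.1, Nat.mem_primeFactors.2 ⟨l.2.1, l.2.2.1, hn⟩⟩ : n.primeFactors)) ?_
  intro l l' h
  exact Subtype.ext (congrArg (fun z : n.primeFactors => (z : ℕ)) h)

/-- the induction over the primes -/
lemma COV_step (hC : N_COV1) (hI : N_INT) (n p : ℕ) [Fact p.Prime] (hn : n ≠ 0)
    (h2 : ∀ l : ℕ, l.Prime → l ∣ n → l ≠ 2) (hp : p ∣ n) (R : Type) [CommRing R]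
    [IsLocalization.Away (n : ℤ) R] (f0 : R →+* ℚ_[p]) (x0 y0 : ℤ_[p])
    (h0 : IsSpl p x0 y0) (f : ∀ l : Pr n p, R →+* ℚ_[l.1]) (x y : ∀ l : Pr n p, ℤ_[l.1])
    (hxy : ∀ l : Pr n p, IsSpl l.1 (x l) (y l))
    (u : Matrix.SpecialLinearGroup (Fin 2) ℚ_[p]) (v : GBn n p) (J : Finset (Pr n p)) :
    ∃ γ : G1n R, (∃ a ∈ KK p, u = a * embf f0 h0 (γ : unitary ℍ[R])) ∧
      ∀ l ∈ J, ∃ b ∈ KK l.1, v l = b * embf (f l) (hxy l) (γ : unitary ℍ[R]) := by
  classical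
  have hpp : p.Prime := Fact.out
  induction J using Finset.induction_on with
  | empty =>
    obtain ⟨γ, -, a, ha, hu⟩ := hC n p hn (h2 p hpp hp) hp R f0 x0 y0 h0 u
    exact ⟨γ, ⟨a, ha, hu⟩, fun l hl => absurd hl (Finset.notMem_empty l)⟩
  | insert r J hr ih =>
    obtain ⟨γ, ⟨a, ha, hu⟩, hJ⟩ := ih
    obtain ⟨γ', ⟨i, α, hα⟩, b, hb, hv⟩ := hC n r.1 hn (h2 r.1 r.2.1 r.2.2.1) r.2.2.1 R (f r)
      (x r) (y r) (hxy r) (v r * (embf (f r) (hxy r) (γ : unitary ℍ[R]))⁻¹)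
    refine ⟨γ' * γ, ⟨a * (embf f0 h0 (γ' : unitary ℍ[R]))⁻¹, ?_, ?_⟩, ?_⟩
    · refine (KK p).mul_mem ha ((KK p).inv_mem ?_)
      exact hI R p f0 x0 y0 h0 (γ' : unitary ℍ[R]) _ α (COV_ndvd hpp r.2.1 (Ne.symm r.2.2.2) i) hα
    · rw [hu, Subgroup.coe_mul, map_mul]
      group
    · intro l hl
      by_cases hlr : l = r
      · subst hlr
        refine ⟨b, hb, ?_⟩
        rw [Subgroup.coe_mul, map_mul, ← mul_assoc, ← hv]
        group
      · obtain ⟨b', hb', hv'⟩ := hJ l ((Finset.mem_insert.1 hl).resolve_left hlr)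
        have hne : l.1 ≠ r.1 := fun h => hlr (Subtype.ext h)
        refine ⟨b' * (embf (f l) (hxy l) (γ' : unitary ℍ[R]))⁻¹, ?_, ?_⟩
        · refine (KK l.1).mul_mem hb' ((KK l.1).inv_mem ?_)
          exact hI R l.1 (f l) (x l) (y l) (hxy l) (γ' : unitary ℍ[R]) _ α
            (COV_ndvd l.2.1 r.2.1 hne i) hα
        · rw [hv', Subgroup.coe_mul, map_mul]
          group

theorem COV_thm (hC : N_COV1) (hI : N_INT) : N_COV := by
  intro n p _ hn h2 hp R _ _ f0 x0 y0 h0 f x y hxy u v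
  have : Finite (Pr n p) := COV_fin n p hn
  have : Fintype (Pr n p) := Fintype.ofFinite _
  obtain ⟨γ, ⟨a, ha, hu⟩, hJ⟩ := COV_step hC hI n p hn h2 hp R f0 x0 y0 h0 f x y hxy u v
    Finset.univ
  choose b hb hv using fun l : Pr n p => hJ l (Finset.mem_univ l)
  refine ⟨a, ha, b, ?_, γ, hu, ?_⟩
  · exact (Subgroup.mem_pi _).2 fun l _ => hb l
  · funext l
    exact hv l

end TauSN
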