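import Mathlib
import Pool.Agent.Work.MP_972ac7_sn.Interface
import Pool.Agent.Work.MP_972ac7_sg.COV1

/-! # MP_972ac7_sn, block COV1: transitivity on the vertices of one tree (helper34, after helper50) -/

set_option autoImplicit false

open MeasureTheory Pool.TFD
open scoped Quaternion BigOperators ENNReal

namespace TauSN

open TauQ (redM)
open TauO (SS pst uM eps eps_sq pst_sq)
open TauSG

lemma C1_pst_emod {l : ℕ} (hl : l.Prime) (hl2 : l ≠ 2) : pst l % 4 = 1 := by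
  have h2 : l % 2 = 1 := by
    rcases hl.eq_two_or_odd with h | h
    · exact absurd h hl2
    · exact h
  have h4 : l % 4 = 1 ∨ l % 4 = 3 := by omega
  rcases h4 with h | h
  · rw [pst, TauO.eps_one h]; omega
  · rw [pst, TauO.eps_three h]; omega

lemma C1_pst_pow {l : ℕ} (hl : l.Prime) (hl2 : l ≠ 2) (j : ℕ) : (pst l) ^ j % 4 = 1 := by
  have h : (pst l) ^ j ≡ 1 ^ j [ZMOD 4] := Int.ModEq.pow j (by
    change pst l % 4 = 1 % 4
    rw [C1_pst_emod hl hl2]; norm_num)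
  rw [one_pow] at h
  exact h

lemma C1_pst_unit {n l : ℕ} (hln : l ∣ n) (R : Type) [CommRing R]
    [IsLocalization.Away (n : ℤ) R] : IsUnit (((pst l : ℤ)) : R) := by
  have h1 : IsUnit (algebraMap ℤ R (n : ℤ)) := IsLocalization.Away.algebraMap_isUnit (n : ℤ)
  have h2 : ((pst l : ℤ)) ∣ (n : ℤ) := by
    have h3 : (pst l : ℤ) ∣ (l : ℤ) := ⟨eps l, by
      rw [pst]
      calc (l : ℤ) = (eps l * eps l) * l := by rw [eps_sq, one_mul]
        _ = eps l * l * eps l := by ring⟩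
    exact h3.trans (by exact_mod_cast hln)
  have h4 : (algebraMap ℤ R (pst l : ℤ)) ∣ algebraMap ℤ R (n : ℤ) := map_dvd _ h2
  have h5 := isUnit_of_dvd_unit h4 h1
  simpa using h5

/-- the element of the group attached to an even product of letters -/
lemma C1_elt {n l : ℕ} (hl : l.Prime) (hl2 : l ≠ 2) (hln : l ∣ n) (R : Type) [CommRing R]
    [IsLocalization.Away (n : ℤ) R] (j : ℕ) (β : ℍ[ℤ]) (hβ : β ∈ TauQ.OO)
    (hN : Quaternion.normSq β = (l : ℤ) ^ (2 * j)) :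
    ∃ γ : G1n R, (((pst l) ^ j : ℤ) : ℍ[R]) * ((γ : unitary ℍ[R]) : ℍ[R]) =
      castn R β := by
  have hu : IsUnit ((((pst l) ^ j : ℤ)) : R) := by
    rw [Int.cast_pow]; exact (C1_pst_unit hln R).pow j
  obtain ⟨t, ht⟩ := hu.exists_right_inv
  have hmem : t • castn R β ∈ unitary ℍ[R] := by
    rw [TauQ.mem_unitary_iff, Quaternion.normSq_smul, castn, TauQ.normSq_qmap, hN]
    have h1 : ((l : ℤ) ^ (2 * j)) = (pst l) ^ j * (pst l) ^ j := by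
      rw [← mul_pow, pst_sq, pow_mul, pow_two]
    rw [h1, map_mul]
    have h2 : (Int.castRingHom R) ((pst l) ^ j) = (((pst l) ^ j : ℤ) : R) := rfl
    rw [h2]
    calc t ^ 2 * ((((pst l) ^ j : ℤ) : R) * (((pst l) ^ j : ℤ) : R))
        = ((((pst l) ^ j : ℤ) : R) * t) ^ 2 := by ring
      _ = 1 := by rw [ht, one_pow]
  have hkey : (((pst l) ^ j : ℤ) : ℍ[R]) * (t • castn R β) = castn R β := by
    have h3 : (((pst l) ^ j : ℤ) : ℍ[R]) = (((((pst l) ^ j : ℤ)) : R) : ℍ[R]) := by norm_cast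
    rw [h3, Quaternion.coe_mul_eq_smul, smul_smul, ht, one_smul]
  exact ⟨⟨⟨t • castn R β, hmem⟩, ⟨(pst l) ^ j, β, C1_pst_pow hl hl2 j, hu, hβ, hkey⟩⟩, hkey⟩

theorem COV1_thm (hE : TauO.Stmt_exists) : N_COV1 := by
  intro n l _ hn hl2 hln R _ _ f x y hxy g
  have hl : l.Prime := Fact.out
  have hlQ : (l : ℚ_[l]) ≠ 0 := by exact_mod_cast hl.ne_zero
  have hlZ : (l : ℤ) ≠ 0 := by exact_mod_cast hl.ne_zero
  have hinj : Function.Injective (algebraMap ℤ_[l] ℚ_[l]) := IsFractionRing.injective ℤ_[l] ℚ_[l]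
  -- 2 is a unit
  obtain ⟨t, ht⟩ : ∃ t : ℤ_[l], 2 * t = 1 := by
    have hd1 : IsUnit (((2 : ℤ) : ℤ_[l])) := by
      rw [PadicInt.isUnit_iff]
      refine le_antisymm (PadicInt.norm_le_one _) ?_
      by_contra hcon
      push Not at hcon
      have h1 := (PadicInt.norm_int_lt_one_iff_dvd 2).1 hcon
      have h2 : l ∣ 2 := by exact_mod_cast h1
      exact hl2 ((Nat.prime_dvd_prime_iff_eq hl Nat.prime_two).1 h2)
    obtain ⟨u, hu⟩ := hd1.exists_right_inv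
    exact ⟨u, by simpa using hu⟩
  -- clear denominators
  obtain ⟨a, X, hX⟩ := COV1_clear ((g⁻¹ : Matrix.SpecialLinearGroup (Fin 2) ℚ_[l]) :
    Matrix (Fin 2) (Fin 2) ℚ_[l])
  have hdet : X.det = (l : ℤ_[l]) ^ (2 * a) := by
    apply hinj
    have h1 : (algebraMap ℤ_[l] ℚ_[l]) X.det = (X.map (algebraMap ℤ_[l] ℚ_[l])).det :=
      RingHom.map_det _ _
    rw [h1, hX, Matrix.det_smul, Matrix.SpecialLinearGroup.det_coe]
    simp
    ring
  obtain ⟨ξ, hξ⟩ := COV1_surj hxy ht X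
  obtain ⟨α, η, hα⟩ := COV1_appQ (2 * a + 1) ξ
  -- the norm of α
  obtain ⟨s, hs, hN⟩ : ∃ s : ℤ, ¬ (l : ℤ) ∣ s ∧ Quaternion.normSq α = (l : ℤ) ^ (2 * a) * s := by
    have h1 : Quaternion.normSq ξ = (l : ℤ_[l]) ^ (2 * a) := by
      rw [← hdet, ← hξ, matQ_det hxy]
    have h2 : (l : ℤ_[l]) ^ (2 * a + 1) ∣ ((Quaternion.normSq α - (l : ℤ) ^ (2 * a) : ℤ) : ℤ_[l]) := by
      push_cast
      rw [← h1]
      have h3 : ((Quaternion.normSq α : ℤ) : ℤ_[l]) =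
          Quaternion.normSq (TauQ.qmap (Int.castRingHom ℤ_[l]) α) := by
        rw [TauQ.normSq_qmap]; rfl
      have h4 : (((l : ℤ) ^ (2 * a + 1) : ℤ) : ℍ[ℤ_[l]]) * η = ((l : ℤ_[l]) ^ (2 * a + 1)) • η := by
        have : (((l : ℤ) ^ (2 * a + 1) : ℤ) : ℍ[ℤ_[l]]) =
            (((l : ℤ_[l]) ^ (2 * a + 1) : ℤ_[l]) : ℍ[ℤ_[l]]) := by
          push_cast; rfl
        rw [this, Quaternion.coe_mul_eq_smul]
      rw [h3, hα, h4]
      obtain ⟨A, hA⟩ : ∃ A, A = TauQ.qmap (Int.castRingHom ℤ_[l]) α := ⟨_, rfl⟩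
      rw [← hA]
      refine ⟨-(2 * (A.re * η.re + A.imI * η.imI + A.imJ * η.imJ + A.imK * η.imK) +
        (l : ℤ_[l]) ^ (2 * a + 1) * Quaternion.normSq η), ?_⟩
      simp only [Quaternion.normSq_def', Quaternion.re_add, Quaternion.imI_add,
        Quaternion.imJ_add, Quaternion.imK_add, Quaternion.re_smul, Quaternion.imI_smul,
        Quaternion.imJ_smul, Quaternion.imK_smul, smul_eq_mul]
      ring
    rw [PadicInt.pow_p_dvd_int_iff] at h2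
    obtain ⟨k, hk⟩ := h2
    refine ⟨1 + l * k, ?_, by linear_combination hk⟩
    intro hd
    have h5 : (l : ℤ) ∣ 1 := by
      have := (Int.dvd_add_right (Dvd.intro k rfl : (l : ℤ) ∣ l * k)).1 (by rwa [add_comm] at hd)
      exact this
    have h6 : l ∣ 1 := by exact_mod_cast h5
    exact hl.one_lt.ne' (Nat.dvd_one.1 h6)
  obtain ⟨e, w, γ', h1, h2⟩ := COV1_fac hE hl hl2 (2 * a) α s hs hN
  obtain ⟨j, hj⟩ : ∃ j, w.length = 2 * j := ⟨a - e, by omega⟩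
  have hej : e + j = a := by omega
  obtain ⟨β, hβ⟩ : ∃ β, β = (w.map SS.val).prod := ⟨_, rfl⟩
  rw [← hβ] at h2
  have hβ1 : β ∈ TauQ.OO := by rw [hβ]; exact COV1_prod_mem j w hj
  have hβ2 : Quaternion.normSq β = (l : ℤ) ^ (2 * j) := by rw [hβ, COV1_norm, hj]
  obtain ⟨γ1, hγ1⟩ := C1_elt hl hl2 hln R j β hβ1 hβ2
  have hγs : (((pst l) ^ j : ℤ) : ℍ[R]) * (((γ1⁻¹ : G1n R) : unitary ℍ[R]) : ℍ[R]) =
      castn R (star β) := by
    have hx : (((γ1⁻¹ : G1n R) : unitary ℍ[R]) : ℍ[R]) = star ((γ1 : unitary ℍ[R]) : ℍ[R]) := rfl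
    rw [hx, castn, TauQ.qmap_star, ← castn, ← hγ1, star_mul, star_intCast]
    exact (Int.cast_commute _ _).eq
  refine ⟨γ1⁻¹, ⟨j, star β, hγs⟩, g * embf f hxy (γ1 : unitary ℍ[R]), ?_, ?_⟩
  swap
  · rw [Subgroup.coe_inv, map_inv]; group
  -- the integral quaternion
  obtain ⟨E, hE1⟩ : ∃ E : ℤ, E = (eps l) ^ j := ⟨_, rfl⟩
  have hE2 : E * E = 1 := by rw [hE1, ← mul_pow, eps_sq, one_pow]
  obtain ⟨B, hB⟩ : ∃ B, B = TauQ.qmap (Int.castRingHom ℤ_[l]) β := ⟨_, rfl⟩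
  obtain ⟨Bs, hBs⟩ : ∃ Bs, Bs = TauQ.qmap (Int.castRingHom ℤ_[l]) (star β) := ⟨_, rfl⟩
  obtain ⟨G, hG⟩ : ∃ G, G = TauQ.qmap (Int.castRingHom ℤ_[l]) γ' := ⟨_, rfl⟩
  have hBB : Bs * B = (((l : ℤ) ^ (2 * j) : ℤ) : ℍ[ℤ_[l]]) := by
    rw [hBs, hB, ← map_mul, Quaternion.star_mul_self, hβ2]
    have : (((l : ℤ) ^ (2 * j) : ℤ) : ℍ[ℤ]) = (((((l : ℤ) ^ (2 * j) : ℤ)) : ℤ) : ℍ[ℤ]) := rfl
    exact map_intCast _ _
  obtain ⟨ζ, hζ⟩ : ∃ ζ : ℍ[ℤ_[l]], ζ = E • (G + ((l : ℤ) ^ (a + 1 - j)) • (Bs * η)) := ⟨_, rfl⟩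
  have key : Bs * ξ = ((E * (l : ℤ) ^ (a + j) : ℤ) : ℍ[ℤ_[l]]) * ζ := by
    have hA : TauQ.qmap (Int.castRingHom ℤ_[l]) α = ((l : ℤ) ^ e) • (B * G) := by
      rw [h2, map_mul, map_mul, map_intCast, ← hB, ← hG, zsmul_eq_mul]
    rw [hα, hA, ← zsmul_eq_mul, ← zsmul_eq_mul, hζ, mul_add, mul_smul_comm, mul_smul_comm,
      ← mul_assoc, hBB, ← zsmul_eq_mul, smul_smul, smul_smul, smul_add, smul_smul]
    congr 1
    · congr 1
      calc (l : ℤ) ^ e * (l : ℤ) ^ (2 * j) = (E * E) * (l : ℤ) ^ (a + j) := by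
            rw [hE2, one_mul, ← pow_add]; congr 1; omega
        _ = E * (l : ℤ) ^ (a + j) * E := by ring
    · congr 1
      calc (l : ℤ) ^ (2 * a + 1) = (E * E) * ((l : ℤ) ^ (a + j) * (l : ℤ) ^ (a + 1 - j)) := by
            rw [hE2, one_mul, ← pow_add]; congr 1; omega
        _ = E * (l : ℤ) ^ (a + j) * E * (l : ℤ) ^ (a + 1 - j) := by ring
  -- the matrix identity
  have hBsQ : TauQ.qmap (algebraMap ℤ_[l] ℚ_[l]) Bs =
      (((pst l) ^ j : ℤ) : ℍ[ℚ_[l]]) *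
        TauQ.qmap (f) (((γ1⁻¹ : G1n R) : unitary ℍ[R]) : ℍ[R]) := by
    have h3 := congrArg (TauQ.qmap (f)) hγs
    rw [map_mul, map_intCast] at h3
    rw [h3, hBs]
    ext <;> simp [castn]
  have hmain : (matQ x y ζ).map (algebraMap ℤ_[l] ℚ_[l]) =
      (((embf f hxy ((γ1⁻¹ : G1n R) : unitary ℍ[R]) * g⁻¹ : Matrix.SpecialLinearGroup (Fin 2) ℚ_[l])) :
        Matrix (Fin 2) (Fin 2) ℚ_[l]) := by
    have hne : ((E : ℚ_[l]) * (l : ℚ_[l]) ^ (a + j)) ≠ 0 := by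
      refine mul_ne_zero ?_ (pow_ne_zero _ hlQ)
      intro h0
      have : (E : ℚ_[l]) * E = 1 := by exact_mod_cast congrArg (Int.cast (R := ℚ_[l])) hE2
      rw [h0, zero_mul] at this
      exact zero_ne_one this
    have hl1 : (matQ x y (Bs * ξ)).map (algebraMap ℤ_[l] ℚ_[l]) =
        ((E : ℚ_[l]) * (l : ℚ_[l]) ^ (a + j)) • (matQ x y ζ).map (algebraMap ℤ_[l] ℚ_[l]) := by
      rw [key, COV1_matQ_int]
      ext i j'
      simp
    have hr1 : (matQ x y (Bs * ξ)).map (algebraMap ℤ_[l] ℚ_[l]) =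
        ((E : ℚ_[l]) * (l : ℚ_[l]) ^ (a + j)) •
        ((((embf f hxy ((γ1⁻¹ : G1n R) : unitary ℍ[R]) * g⁻¹ : Matrix.SpecialLinearGroup (Fin 2) ℚ_[l])) :
        Matrix (Fin 2) (Fin 2) ℚ_[l])) := by
      rw [matQ_mul hxy, hξ, Matrix.map_mul, hX]
      have h4 : (matQ x y Bs).map (algebraMap ℤ_[l] ℚ_[l]) =
          matQ (x : ℚ_[l]) (y : ℚ_[l]) (TauQ.qmap (algebraMap ℤ_[l] ℚ_[l]) Bs) := by
        ext i j
        fin_cases i <;> fin_cases j <;> simp [matQ]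
      rw [h4, hBsQ, COV1_matQ_int, Matrix.mul_smul, Matrix.smul_mul, smul_smul,
        Matrix.SpecialLinearGroup.coe_mul]
      congr 1
      rw [hE1, pst, Int.cast_pow, Int.cast_mul, Int.cast_natCast, Int.cast_pow]
      ring
    have := hl1.symm.trans hr1
    exact smul_right_injective _ hne this
  have hdet1 : (matQ x y ζ).det = 1 := by
    apply hinj
    rw [RingHom.map_det, map_one]
    change ((matQ x y ζ).map (algebraMap ℤ_[l] ℚ_[l])).det = 1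
    rw [hmain, Matrix.SpecialLinearGroup.det_coe]
  have hmem : embf f hxy ((γ1⁻¹ : G1n R) : unitary ℍ[R]) * g⁻¹ ∈ KK l :=
    ⟨⟨matQ x y ζ, hdet1⟩, Subtype.ext hmain⟩
  have hmem2 := (KK l).inv_mem hmem
  rw [mul_inv_rev, inv_inv, ← map_inv, ← Subgroup.coe_inv, inv_inv] at hmem2
  exact hmem2

end TauSN
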