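import Mathlib
import Pool.Agent.Work.MP_972ac7_sn.Interface
set_option autoImplicit false

/-! Block CTR (helper65): `SL2(ℚ_l)` and the product are generated by contractible elements. -/

open MeasureTheory Pool.TFD
open scoped Quaternion BigOperators ENNReal

namespace TauSN

open TauSG

/-- contractible elements -/
def CTR_set (G : Type) [Group G] [TopologicalSpace G] : Set G :=
  {a : G | ∃ b : ℕ → G, Filter.Tendsto (fun n => b n * a * (b n)⁻¹) Filter.atTop (nhds 1)}

/-- diagonal matrices -/
def CTR_dd {k : Type} [Field k] (u : k) (hu : u ≠ 0) : Matrix.SpecialLinearGroup (Fin 2) k :=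
  ⟨!![u, 0; 0, u⁻¹], by simp [Matrix.det_fin_two, hu]⟩

theorem CTR_upp {k : Type} [Field k] (u : k) (hu : u ≠ 0) (t : k) :
    CTR_dd u hu * upp t * (CTR_dd u hu)⁻¹ = upp (u ^ 2 * t) := by
  rw [mul_inv_eq_iff_eq_mul]
  apply Subtype.ext
  rw [Matrix.SpecialLinearGroup.coe_mul, Matrix.SpecialLinearGroup.coe_mul]
  unfold CTR_dd upp
  ext i j
  fin_cases i <;> fin_cases j <;>
    simp [Matrix.mul_apply, Fin.sum_univ_two] <;> field_simp

theorem CTR_low {k : Type} [Field k] (u : k) (hu : u ≠ 0) (t : k) :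
    CTR_dd u⁻¹ (inv_ne_zero hu) * low t * (CTR_dd u⁻¹ (inv_ne_zero hu))⁻¹ = low (u ^ 2 * t) := by
  rw [mul_inv_eq_iff_eq_mul]
  apply Subtype.ext
  rw [Matrix.SpecialLinearGroup.coe_mul, Matrix.SpecialLinearGroup.coe_mul]
  unfold CTR_dd low
  ext i j
  fin_cases i <;> fin_cases j <;>
    simp [Matrix.mul_apply, Fin.sum_univ_two] <;> field_simp

theorem CTR_cont_upp {k : Type} [Field k] [TopologicalSpace k] :
    Continuous (fun t : k => upp t) := by
  apply continuous_induced_rng.2
  apply continuous_matrix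
  intro i j
  fin_cases i <;> fin_cases j
  · exact continuous_const
  · exact continuous_id
  · exact continuous_const
  · exact continuous_const

theorem CTR_cont_low {k : Type} [Field k] [TopologicalSpace k] :
    Continuous (fun t : k => low t) := by
  apply continuous_induced_rng.2
  apply continuous_matrix
  intro i j
  fin_cases i <;> fin_cases j
  · exact continuous_const
  · exact continuous_const
  · exact continuous_id
  · exact continuous_const

theorem CTR_zero {k : Type} [Field k] : upp (0 : k) = 1 ∧ low (0 : k) = 1 := by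
  constructor
  · apply Subtype.ext
    unfold upp
    ext i j
    fin_cases i <;> fin_cases j <;> simp
  · apply Subtype.ext
    unfold low
    ext i j
    fin_cases i <;> fin_cases j <;> simp

theorem CTR_tend (l : ℕ) [Fact l.Prime] (t : ℚ_[l]) :
    Filter.Tendsto (fun n : ℕ => ((l : ℚ_[l]) ^ n) ^ 2 * t) Filter.atTop (nhds 0) := by
  have h1 : Filter.Tendsto (fun n : ℕ => (l : ℚ_[l]) ^ n) Filter.atTop (nhds 0) :=
    tendsto_pow_atTop_nhds_zero_of_norm_lt_one Padic.norm_p_lt_one
  have h2 := (h1.pow 2).mul_const t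
  simpa using h2

/-- one factor -/
theorem CTR_one (h : S_GEN) (l : ℕ) [Fact l.Prime] :
    Subgroup.closure (CTR_set (Matrix.SpecialLinearGroup (Fin 2) ℚ_[l])) = ⊤ := by
  rw [eq_top_iff, ← h ℚ_[l], Subgroup.closure_le]
  have hl : ∀ n : ℕ, (l : ℚ_[l]) ^ n ≠ 0 := fun n =>
    pow_ne_zero n (by exact_mod_cast (Fact.out : l.Prime).ne_zero)
  rintro g ⟨t, rfl | rfl⟩
  · apply Subgroup.subset_closure
    refine ⟨fun n => CTR_dd _ (hl n), ?_⟩
    have h1 := (CTR_cont_upp (k := ℚ_[l])).tendsto 0
    rw [CTR_zero.1] at h1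
    exact (h1.comp (CTR_tend l t)).congr fun n => (CTR_upp _ (hl n) t).symm
  · apply Subgroup.subset_closure
    refine ⟨fun n => CTR_dd _ (inv_ne_zero (hl n)), ?_⟩
    have h1 := (CTR_cont_low (k := ℚ_[l])).tendsto 0
    rw [CTR_zero.2] at h1
    exact (h1.comp (CTR_tend l t)).congr fun n => (CTR_low _ (hl n) t).symm

theorem CTR_fin (n p : ℕ) (hn : n ≠ 0) : Finite (Pr n p) := by
  have : Set.Finite {l : ℕ | l.Prime ∧ l ∣ n ∧ l ≠ p} :=
    (Set.finite_Iic n).subset fun l hl => Nat.le_of_dvd (Nat.pos_of_ne_zero hn) hl.2.1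
  exact this.to_subtype

theorem CTR_thm (h : S_GEN) : N_CTR := by
  classical
  refine ⟨fun l _ => ?_, fun n p hn => ?_⟩
  · unfold Pool.TC.ContrGen
    have h1 := CTR_one h l
    unfold CTR_set at h1
    rw [h1]
    exact dense_univ
  · unfold Pool.TC.ContrGen
    have := CTR_fin n p hn
    have h1 : Subgroup.closure (CTR_set (GBn n p)) = ⊤ := by
      rw [eq_top_iff]
      rintro x -
      apply Subgroup.pi_mem_of_mulSingle_mem
      intro l
      have h2 : Subgroup.closure (CTR_set (Matrix.SpecialLinearGroup (Fin 2) ℚ_[l.1])) ≤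
          (Subgroup.closure (CTR_set (GBn n p))).comap
            (MonoidHom.mulSingle (fun l : Pr n p => Matrix.SpecialLinearGroup (Fin 2) ℚ_[l.1]) l) := by
        rw [Subgroup.closure_le]
        rintro a ⟨b, hb⟩
        rw [SetLike.mem_coe, Subgroup.mem_comap]
        apply Subgroup.subset_closure
        refine ⟨fun m => MonoidHom.mulSingle
          (fun l : Pr n p => Matrix.SpecialLinearGroup (Fin 2) ℚ_[l.1]) l (b m), ?_⟩
        simp only [← map_mul, ← map_inv]
        have h3 : Continuous (fun y : Matrix.SpecialLinearGroup (Fin 2) ℚ_[l.1] =>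
            (MonoidHom.mulSingle (fun l : Pr n p => Matrix.SpecialLinearGroup (Fin 2) ℚ_[l.1]) l y :
              GBn n p)) :=
          continuous_mulSingle
            (A := fun l : Pr n p => Matrix.SpecialLinearGroup (Fin 2) ℚ_[l.1]) l
        have h4 := h3.tendsto 1
        rw [map_one] at h4
        exact h4.comp hb
      rw [CTR_one h l.1] at h2
      exact h2 (Subgroup.mem_top (x l))
    unfold CTR_set at h1
    rw [h1]
    exact dense_univ

end TauSN
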