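import Mathlib
import Pool.Agent.Work.MP_972ac7_sn.Interface
import Pool.Agent.Work.MP_972ac7_tq.FP

/-! # MP_972ac7_al, general n, block FIX: `G1n R` has finite index (helper17) -/

set_option autoImplicit false

open MeasureTheory Pool.TFD
open scoped Quaternion BigOperators ENNReal

namespace TauSN

open TauQ (redM)
open TauO (SS pst uM)
open TauSG

/-- clearing denominators in one coordinate -/
lemma FIX_coord (n : ℕ) (R : Type) [CommRing R] [IsLocalization.Away (n : ℤ) R] (c : R) :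
    ∃ k : ℕ, ∀ K : ℕ, k ≤ K → ∃ a : ℤ, (((n : ℤ) ^ K : ℤ) : R) * c = ((a : ℤ) : R) := by
  obtain ⟨k, a, h⟩ := IsLocalization.Away.surj (S := R) ((n : ℤ)) c
  refine ⟨k, fun K hK => ⟨((n : ℤ) ^ (K - k)) * a, ?_⟩⟩
  obtain ⟨j, rfl⟩ := Nat.exists_eq_add_of_le hK
  rw [Nat.add_sub_cancel_left, pow_add, Int.cast_mul, Int.cast_mul]
  have h' : ((a : ℤ) : R) = c * (((n : ℤ) ^ k : ℤ) : R) := by
    have e1 : algebraMap ℤ R a = ((a : ℤ) : R) := eq_intCast _ _
    have e2 : algebraMap ℤ R (n : ℤ) = (((n : ℤ) : ℤ) : R) := eq_intCast _ _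
    rw [← e1, ← h, e2, Int.cast_pow]
  rw [h']
  ring

/-- clearing denominators -/
lemma FIX_denom (n : ℕ) (R : Type) [CommRing R] [IsLocalization.Away (n : ℤ) R] (x : ℍ[R]) :
    ∃ (K : ℕ) (α : ℍ[ℤ]), (((n : ℤ) ^ K : ℤ) : ℍ[R]) * x = castn R α := by
  obtain ⟨k0, h0⟩ := FIX_coord n R x.re
  obtain ⟨k1, h1⟩ := FIX_coord n R x.imI
  obtain ⟨k2, h2⟩ := FIX_coord n R x.imJ
  obtain ⟨k3, h3⟩ := FIX_coord n R x.imK
  obtain ⟨a0, e0⟩ := h0 (k0 + k1 + k2 + k3) (by omega)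
  obtain ⟨a1, e1⟩ := h1 (k0 + k1 + k2 + k3) (by omega)
  obtain ⟨a2, e2⟩ := h2 (k0 + k1 + k2 + k3) (by omega)
  obtain ⟨a3, e3⟩ := h3 (k0 + k1 + k2 + k3) (by omega)
  refine ⟨k0 + k1 + k2 + k3, TauQ.mk4 a0 a1 a2 a3, ?_⟩
  generalize ((n : ℤ) ^ (k0 + k1 + k2 + k3) : ℤ) = d at *
  ext
  · rw [Quaternion.re_mul, castn, TauQ.qmap_re, TauQ.mk4_re, eq_intCast, ← e0,
      Quaternion.re_intCast, Quaternion.imI_intCast, Quaternion.imJ_intCast,
      Quaternion.imK_intCast]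
    ring
  · rw [Quaternion.imI_mul, castn, TauQ.qmap_imI, TauQ.mk4_imI, eq_intCast, ← e1,
      Quaternion.re_intCast, Quaternion.imI_intCast, Quaternion.imJ_intCast,
      Quaternion.imK_intCast]
    ring
  · rw [Quaternion.imJ_mul, castn, TauQ.qmap_imJ, TauQ.mk4_imJ, eq_intCast, ← e2,
      Quaternion.re_intCast, Quaternion.imI_intCast, Quaternion.imJ_intCast,
      Quaternion.imK_intCast]
    ring
  · rw [Quaternion.imK_mul, castn, TauQ.qmap_imK, TauQ.mk4_imK, eq_intCast, ← e3,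
      Quaternion.re_intCast, Quaternion.imI_intCast, Quaternion.imJ_intCast,
      Quaternion.imK_intCast]
    ring

/-- the eight units -/
noncomputable def FIX_e (R : Type) [CommRing R] (i : Fin 4 × Bool) : unitary ℍ[R] :=
  ⟨castn R (TauQ.FP_bq i.1 i.2), by
    rw [TauQ.mem_unitary_iff, castn, TauQ.normSq_qmap, TauQ.FP_bq_norm, map_one]⟩

lemma FIX_decomp (n : ℕ) (hn : n % 2 = 1) (R : Type) [CommRing R] [IsLocalization.Away (n : ℤ) R]
    (x : unitary ℍ[R]) : ∃ i, (FIX_e R i)⁻¹ * x ∈ G1n R := by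
  obtain ⟨K, α, h⟩ := FIX_denom n R (x : ℍ[R])
  have hnodd : ((n : ℤ) ^ K) % 2 = 1 := by
    have h1 : (n ^ K) % 2 = 1 := by
      rw [Nat.pow_mod, hn]
      simp
    exact_mod_cast h1
  have hU : IsUnit (((n : ℤ) : ℤ) : R) := by
    have := IsLocalization.Away.algebraMap_isUnit (S := R) ((n : ℤ))
    rwa [eq_intCast] at this
  have hUK : IsUnit ((((n : ℤ) ^ K : ℤ)) : R) := by
    rw [Int.cast_pow]
    exact hU.pow K
  have hinj : Function.Injective (algebraMap ℤ R) := by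
    have h0 : (n : ℤ) ≠ 0 := by omega
    exact IsLocalization.injective (M := Submonoid.powers ((n : ℤ))) R
      (powers_le_nonZeroDivisors_of_noZeroDivisors h0)
  have hx1 : Quaternion.normSq (x : ℍ[R]) = 1 := (TauQ.mem_unitary_iff _).1 x.2
  generalize ((n : ℤ) ^ K : ℤ) = d at *
  have hsq : (d * d) % 4 = 1 := by
    have h7 : d % 4 = 1 ∨ d % 4 = 3 := by omega
    rw [Int.mul_emod]
    rcases h7 with h7 | h7 <;> rw [h7] <;> norm_num
  have hnorm : Quaternion.normSq α = d * d := by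
    have h2 := congrArg Quaternion.normSq h
    rw [map_mul, hx1, mul_one, castn, TauQ.normSq_qmap, Quaternion.normSq_intCast] at h2
    apply hinj
    rw [eq_intCast, eq_intCast, Int.cast_mul, ← sq, h2, eq_intCast]
  have hα : Quaternion.normSq ((d : ℍ[ℤ]) * α) % 4 = 1 := by
    rw [map_mul, hnorm, Quaternion.normSq_intCast, sq, Int.mul_emod]
    have : ((d : ℤ) : ℤ) = d := rfl
    simp only [Int.cast_id, hsq]
    norm_num
  obtain ⟨i, s, hOO⟩ := TauQ.FP_unitmul _ hα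
  refine ⟨(i, s), d * d, _, hsq, ?_, hOO, ?_⟩
  · rw [Int.cast_mul]
    exact hUK.mul hUK
  · have hh : ((d * d : ℤ) : ℍ[R]) * (x : ℍ[R]) = castn R ((d : ℍ[ℤ]) * α) := by
      rw [map_mul, ← h, ← mul_assoc, Int.cast_mul, map_intCast]
    have hinv : (((FIX_e R (i, s))⁻¹ : unitary ℍ[R]) : ℍ[R]) =
        castn R (star (TauQ.FP_bq i s)) := by
      rw [castn, TauQ.qmap_star]
      rfl
    rw [map_mul, ← hh, Submonoid.coe_mul, hinv, ← mul_assoc, ← mul_assoc]
    rw [(Int.cast_commute (d * d) (castn R (star (TauQ.FP_bq i s)))).eq]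

theorem FIX_thm : N_FIX := by
  intro n hn R _ _
  have hodd : n % 2 = 1 := by
    by_contra hcon
    exact hn 2 Nat.prime_two (by omega) rfl
  have hs : Function.Surjective (fun i : Fin 4 × Bool =>
      (QuotientGroup.mk (FIX_e R i) : unitary ℍ[R] ⧸ G1n R)) := by
    intro y
    obtain ⟨x, rfl⟩ := QuotientGroup.mk_surjective y
    obtain ⟨i, hi⟩ := FIX_decomp n hodd R x
    exact ⟨i, QuotientGroup.eq.2 hi⟩
  haveI : Finite (unitary ℍ[R] ⧸ G1n R) := Finite.of_surjective _ hs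
  exact Subgroup.finiteIndex_of_finite_quotient

end TauSN
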