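import Mathlib
import Pool.Agent.Work.MP_972ac7_sn.Interface
import Pool.Agent.Work.MP_972ac7_sg.HSG
set_option autoImplicit false

/-! Block FULL (helper88): strong approximation at prime powers. -/

open MeasureTheory Pool.TFD
open scoped Quaternion BigOperators ENNReal

namespace TauSN

open TauQ (RR GG castR redM)
open TauO (G1 SS pst uM eps eps_sq pst_unit)
open TauSG

theorem FULL_coe_mul {M : ℕ} (a : ℤ) (z : ℍ[ZMod M]) :
    ((a : ℤ) : ℍ[ZMod M]) * z = ((a : ℤ) : ZMod M) • z := by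
  rw [← zsmul_eq_mul, Int.cast_smul_eq_zsmul]

theorem FULL_side (hIDX : S_IDX) (hLEV : S_LEV) (hPAIR : S_PAIR) (hWORD : S_WORD)
    (hINT : S_INT) (l r : ℕ) [Fact l.Prime] (hr : r.Prime) (hl2 : l ≠ 2) (hr2 : r ≠ 2)
    (hne : l ≠ r) (h : l * r ≠ 0) (x y : ℤ_[l]) (hxy : IsSpl l x y) :
    ∃ (L : Levels (KK l)) (O : ℕ),
      (∀ R, (((((emb l r l h hxy).comp (G1 l r).subtype).range).subgroupOf (KK l)).map
        (L.ρ R)).index ≤ O) ∧
      ∀ R, ((((emb l r l h hxy).comp (G1 l r).subtype).range).subgroupOf (KK l)).map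
        (L.ρ R) = ⊤ → ∀ (_ : NeZero (l ^ R)) (hM : Nat.Coprime r (l ^ R)),
        Subgroup.closure {z | ∃ b' b : SS r, z = uM (l ^ R) hM b' b} = ⊤ := by
  have hl : l.Prime := Fact.out
  have hnd : ¬ (l : ℤ) ∣ pst r := by
    intro hd
    have h1 : (l : ℤ) ∣ r := by
      have h2 : (r : ℤ) = eps r * pst r := by
        unfold pst
        rw [← mul_assoc, eps_sq, one_mul]
      rw [h2]
      exact Dvd.dvd.mul_left hd _
    have h3 : l ∣ r := Int.natCast_dvd_natCast.1 h1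
    exact hne ((Nat.prime_dvd_prime_iff_eq hl hr).1 h3)
  have hM : ∀ R : ℕ, Nat.Coprime r (l ^ R) := fun R =>
    Nat.Coprime.pow_right R ((Nat.coprime_primes hr hl).2 hne.symm)
  haveI hNZ : ∀ R : ℕ, NeZero (l ^ R) := fun R => ⟨pow_ne_zero _ hl.ne_zero⟩
  choose sP hsP using hPAIR l r r hl hr hl2 hr2 (Or.inr rfl)
  obtain ⟨L, e, he⟩ := hLEV l hl2 x y hxy
  obtain ⟨g, O, hg, hI⟩ := hIDX l r hl hr hl2 hr2 hne
  set F : G1 l r →* Matrix.SpecialLinearGroup (Fin 2) ℚ_[l] :=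
    (emb l r l h hxy).comp (G1 l r).subtype with hF
  have hpair : ∀ (γ : G1 l r) (b' b : SS r),
      ((pst r : ℤ) : ℍ[RR l r]) * ((γ : GG l r) : ℍ[RR l r]) = castR l r (b'.val * b.val) →
      F γ ∈ KK l := fun γ b' b hγ => hINT l r l h x y hxy γ (pst r) _ hnd hγ
  have hval : ∀ (γ : G1 l r) (b' b : SS r)
      (_ : ((pst r : ℤ) : ℍ[RR l r]) * ((γ : GG l r) : ℍ[RR l r]) = castR l r (b'.val * b.val))
      (hm : F γ ∈ KK l) (R : ℕ), e R (L.ρ R ⟨F γ, hm⟩) = uM (l ^ R) (hM R) b' b := by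
    intro γ b' b hγ hm R
    apply Subtype.ext
    have h1 := he l r h γ (pst r) _ hnd hγ hm R
    have h2 : ((uM (l ^ R) (hM R) b' b : unitary ℍ[ZMod (l ^ R)]) : ℍ[ZMod (l ^ R)]) =
        ((((pst r : ℤ) : ZMod (l ^ R)))⁻¹) • redM (l ^ R) (b'.val * b.val) := rfl
    rw [h2, ← h1, FULL_coe_mul, smul_smul, mul_comm _ (((pst r : ℤ) : ZMod (l ^ R))),
      pst_unit (hM R), one_smul]
    rfl
  have hs : ∀ i : SS r × SS r, F (sP i.1 i.2) ∈ KK l := fun i => hpair _ i.1 i.2 (hsP i.1 i.2)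
  -- the images of the lattice at the levels
  have hle : ∀ R, Subgroup.closure {z | ∃ b' b : SS r, z = uM (l ^ R) (hM R) b' b} ≤
      (((F.range).subgroupOf (KK l)).map (L.ρ R)).map (e R).toMonoidHom := by
    intro R
    rw [Subgroup.closure_le]
    rintro z ⟨b', b, rfl⟩
    refine ⟨L.ρ R ⟨F (sP b' b), hs (b', b)⟩, ⟨⟨F (sP b' b), hs (b', b)⟩, ?_, rfl⟩, ?_⟩
    · exact ⟨sP b' b, rfl⟩
    · exact hval _ b' b (hsP b' b) _ R
  have hge : ∀ R, (((F.range).subgroupOf (KK l)).map (L.ρ R)).map (e R).toMonoidHom ≤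
      Subgroup.closure {z | ∃ b' b : SS r, z = uM (l ^ R) (hM R) b' b} := by
    intro R
    rintro _ ⟨_, ⟨k, hk, rfl⟩, rfl⟩
    obtain ⟨γ, hγ⟩ := hk
    have hγK : F γ ∈ KK l := by
      have : F γ = (k : Matrix.SpecialLinearGroup (Fin 2) ℚ_[l]) := hγ
      rw [this]; exact k.2
    have hkγ : k = ⟨F γ, hγK⟩ := Subtype.ext hγ.symm
    have hcl := hWORD l r l r hl hr hl2 hr2 hne (Or.inl ⟨rfl, rfl⟩) h x y hxy γ hγK
    have key : ∃ hm : F γ ∈ KK l, e R (L.ρ R ⟨F γ, hm⟩) ∈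
        Subgroup.closure {z | ∃ b' b : SS r, z = uM (l ^ R) (hM R) b' b} := by
      refine Subgroup.closure_induction (p := fun γ _ => ∃ hm : F γ ∈ KK l,
        e R (L.ρ R ⟨F γ, hm⟩) ∈
          Subgroup.closure {z | ∃ b' b : SS r, z = uM (l ^ R) (hM R) b' b}) ?_ ?_ ?_ ?_ hcl
      · rintro γ' ⟨b', b, hb⟩
        refine ⟨hpair γ' b' b hb, ?_⟩
        rw [hval γ' b' b hb]
        exact Subgroup.subset_closure ⟨b', b, rfl⟩
      · refine ⟨by rw [map_one]; exact one_mem _, ?_⟩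
        have h1 : (⟨F 1, by rw [map_one]; exact one_mem _⟩ : KK l) = 1 :=
          Subtype.ext (map_one F)
        rw [h1, map_one, map_one]
        exact one_mem _
      · rintro a b _ _ ⟨ha, ha'⟩ ⟨hb, hb'⟩
        refine ⟨by rw [map_mul]; exact mul_mem ha hb, ?_⟩
        have h1 : (⟨F (a * b), by rw [map_mul]; exact mul_mem ha hb⟩ : KK l) =
            ⟨F a, ha⟩ * ⟨F b, hb⟩ := Subtype.ext (map_mul F a b)
        rw [h1, map_mul, map_mul]
        exact mul_mem ha' hb'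
      · rintro a _ ⟨ha, ha'⟩
        refine ⟨by rw [map_inv]; exact inv_mem ha, ?_⟩
        have h1 : (⟨F a⁻¹, by rw [map_inv]; exact inv_mem ha⟩ : KK l) = (⟨F a, ha⟩)⁻¹ :=
          Subtype.ext (map_inv F a)
        rw [h1, map_inv, map_inv]
        exact inv_mem ha'
    obtain ⟨hm, hmem⟩ := key
    rw [hkγ]
    exact hmem
  refine ⟨L, O, ?_, ?_⟩
  · intro R
    have h1 := (hI R (hM R)).1
    refine le_trans ?_ h1
    have h2 : (((F.range).subgroupOf (KK l)).map (L.ρ R)).index =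
        ((((F.range).subgroupOf (KK l)).map (L.ρ R)).map (e R).toMonoidHom).index :=
      (Subgroup.index_map_equiv _ (e R)).symm
    rw [h2]
    refine Nat.le_of_dvd (Nat.pos_of_ne_zero Subgroup.index_ne_zero_of_finite)
      (Subgroup.index_dvd_of_le (hle R))
  · intro R hT _ _
    rw [eq_top_iff]
    refine le_trans ?_ (hge R)
    rw [hT, ← MonoidHom.range_eq_map]
    intro z _
    exact ⟨(e R).symm z, (e R).apply_symm_apply z⟩

theorem FULL_thm (hIDX : S_IDX) (hLEV : S_LEV) (hPAIR : S_PAIR) (hWORD : S_WORD)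
    (hINT : S_INT) (hONE : S_ONE) (hNOFD : S_NOFD) (hTOP : S_TOPL) (hCOV : S_COV)
    (hTRIV : S_TRIV) (hSPL : S_SPL) : N_FULL := by
  intro p l hp hl hp2 hl2 hpl k _ hM
  haveI : Fact p.Prime := ⟨hp⟩
  haveI : Fact l.Prime := ⟨hl⟩
  have h : l * p ≠ 0 := mul_ne_zero hl.ne_zero hp.ne_zero
  obtain ⟨x, y, hxy⟩ := hSPL l hl2
  obtain ⟨x', y', hxy'⟩ := hSPL p hp2
  obtain ⟨i1, i2, i3, -, -⟩ := hTOP l
  let T := trPQ hTOP hCOV hTRIV l p hl2 hp2 hpl.symm h hxy hxy'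
  obtain ⟨L, O, hidx, hfull⟩ := FULL_side hIDX hLEV hPAIR hWORD hINT l p hp hl2 hp2 hpl.symm h x y hxy
  have h1 := hONE _ _ _ T L O (hNOFD l) hidx
  exact hfull k (h1.1 k) inferInstance hM

end TauSN
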