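import Mathlib
import Pool.Agent.Work.MP_972ac7_sn.Interface
set_option autoImplicit false

/-! Block GAPA (helper88): the gap at all levels of `KK p`. -/

open MeasureTheory Pool.TFD
open scoped Quaternion BigOperators ENNReal

namespace TauSN

open TauQ (redM)
open TauO (SS pst uM eps eps_sq pst_unit)
open TauSG

theorem GAPA_coe_mul {M : ℕ} (a : ℤ) (z : ℍ[ZMod M]) :
    ((a : ℤ) : ℍ[ZMod M]) * z = ((a : ℤ) : ZMod M) • z := by
  rw [← zsmul_eq_mul, Int.cast_smul_eq_zsmul]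

theorem GAPA_thm (hIDX : S_IDX) (hFULL : N_FULL) (hLEV : N_LEV) (hPAIR : N_PAIR)
    (hINT : N_INT) : N_GAPA := by
  intro n p q _ hq hp2 hq2 hne hqn R0 _ _ f x y hxy
  have hp : p.Prime := Fact.out
  have hnd : ¬ (p : ℤ) ∣ pst q := by
    intro hd
    have h1 : (p : ℤ) ∣ q := by
      have h2 : (q : ℤ) = eps q * pst q := by
        unfold pst
        rw [← mul_assoc, eps_sq, one_mul]
      rw [h2]
      exact Dvd.dvd.mul_left hd _
    have h3 : p ∣ q := Int.natCast_dvd_natCast.1 h1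
    exact hne ((Nat.prime_dvd_prime_iff_eq hp hq).1 h3)
  have hM : ∀ R : ℕ, Nat.Coprime q (p ^ R) := fun R =>
    Nat.Coprime.pow_right R ((Nat.coprime_primes hq hp).2 hne.symm)
  haveI hNZ : ∀ R : ℕ, NeZero (p ^ R) := fun R => ⟨pow_ne_zero _ hp.ne_zero⟩
  choose sP hsP using hPAIR n q hq hq2 hqn R0
  obtain ⟨L, e, he⟩ := hLEV p hp2 x y hxy
  obtain ⟨g, O, hg, hI⟩ := hIDX p q hp hq hp2 hq2 hne
  set F : G1n R0 →* Matrix.SpecialLinearGroup (Fin 2) ℚ_[p] :=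
    (embf f hxy).comp (G1n R0).subtype with hF
  have hpair : ∀ (γ : G1n R0) (b' b : SS q),
      ((pst q : ℤ) : ℍ[R0]) * ((γ : unitary ℍ[R0]) : ℍ[R0]) = castn R0 (b'.val * b.val) →
      F γ ∈ KK p := fun γ b' b hγ => hINT R0 p f x y hxy γ (pst q) _ hnd hγ
  have hval : ∀ (γ : G1n R0) (b' b : SS q)
      (_ : ((pst q : ℤ) : ℍ[R0]) * ((γ : unitary ℍ[R0]) : ℍ[R0]) = castn R0 (b'.val * b.val))
      (hm : F γ ∈ KK p) (R : ℕ), e R (L.ρ R ⟨F γ, hm⟩) = uM (p ^ R) (hM R) b' b := by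
    intro γ b' b hγ hm R
    apply Subtype.ext
    have h1 := he R0 f γ (pst q) _ hnd hγ hm R
    have h2 : ((uM (p ^ R) (hM R) b' b : unitary ℍ[ZMod (p ^ R)]) : ℍ[ZMod (p ^ R)]) =
        ((((pst q : ℤ) : ZMod (p ^ R)))⁻¹) • redM (p ^ R) (b'.val * b.val) := rfl
    rw [h2, ← h1, GAPA_coe_mul, smul_smul, mul_comm _ (((pst q : ℤ) : ZMod (p ^ R))),
      pst_unit (hM R), one_smul]
    rfl
  have hs : ∀ i : SS q × SS q, F (sP i.1 i.2) ∈ KK p := fun i => hpair _ i.1 i.2 (hsP i.1 i.2)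
  refine ⟨L, 2 * g, fun i => sP i.1 i.2, hs, by positivity, ?_⟩
  intro R φ hφ
  have h1 := (hI R (hM R)).2 (hFULL q p hq hp hq2 hp2 hne.symm R (hM R))
  -- from left to right
  have h2 := h1 (fun u => φ (((e R).symm u)⁻¹)) (by
    rw [← hφ]
    exact Fintype.sum_equiv ((e R).symm.toEquiv.trans (Equiv.inv _)) _ _ (fun u => rfl))
  have h3 : ∑ u : unitary ℍ[ZMod (p ^ R)], ‖φ (((e R).symm u)⁻¹)‖ ^ 2 = ∑ x, ‖φ x‖ ^ 2 :=
    Fintype.sum_equiv ((e R).symm.toEquiv.trans (Equiv.inv _)) _ _ (fun u => rfl)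
  rw [h3] at h2
  refine h2.trans (le_of_eq ?_)
  rw [Fintype.sum_prod_type]
  refine Finset.sum_congr rfl fun b' _ => Finset.sum_congr rfl fun b _ => ?_
  have h4 : (e R).symm (uM (p ^ R) (hM R) b' b) = L.ρ R ⟨F (sP b' b), hs (b', b)⟩ := by
    rw [← hval (sP b' b) b' b (hsP b' b) (hs (b', b)) R]
    exact (e R).symm_apply_apply _
  refine Fintype.sum_equiv ((Equiv.mulLeft (uM (p ^ R) (hM R) b' b)).trans
    ((e R).symm.toEquiv.trans (Equiv.inv _))) _ _ (fun u => ?_)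
  have h5 : ((Equiv.mulLeft (uM (p ^ R) (hM R) b' b)).trans
    ((e R).symm.toEquiv.trans (Equiv.inv _))) u =
      ((e R).symm (uM (p ^ R) (hM R) b' b * u))⁻¹ := rfl
  rw [h5]
  have h6 : ((e R).symm (uM (p ^ R) (hM R) b' b * u))⁻¹ *
      L.ρ R ⟨F (sP b' b), hs (b', b)⟩ = ((e R).symm u)⁻¹ := by
    rw [map_mul, mul_inv_rev, h4, mul_assoc, inv_mul_cancel, mul_one]
  show ‖φ (((e R).symm (uM (p ^ R) (hM R) b' b * u))⁻¹) - φ (((e R).symm u)⁻¹)‖ ^ 2 =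
    ‖φ (((e R).symm (uM (p ^ R) (hM R) b' b * u))⁻¹ * L.ρ R ⟨F (sP b' b), hs (b', b)⟩) -
      φ (((e R).symm (uM (p ^ R) (hM R) b' b * u))⁻¹)‖ ^ 2
  rw [h6, norm_sub_rev]

end TauSN
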