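import Mathlib
import Pool.Agent.Work.MP_972ac7_sn.Interface

/-! The image of the lattice in the levels of `KK p` is everything. -/

open MeasureTheory Pool.TFD
open scoped Quaternion BigOperators ENNReal

namespace TauSN

open TauQ (redM)
open TauO (SS pst uM eps eps_sq pst_unit)
open TauSG

/-- IDXA -/
def N_IDXA : Prop :=
  ∀ (n p q : ℕ) [Fact p.Prime], q.Prime → p ≠ 2 → q ≠ 2 → p ≠ q → q ∣ n → n ≠ 0 →
    ∀ (R : Type) [CommRing R] [IsLocalization.Away (n : ℤ) R] (f : R →+* ℚ_[p]) (x y : ℤ_[p])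
      (hxy : IsSpl p x y), ∃ (L : Levels (KK p)) (O : ℕ), ∀ k,
      (((((embf f hxy).comp (G1n R).subtype).range).subgroupOf (KK p)).map (L.ρ k)).index ≤ O

theorem IDXA_coe_mul {M : ℕ} (a : ℤ) (z : ℍ[ZMod M]) :
    ((a : ℤ) : ℍ[ZMod M]) * z = ((a : ℤ) : ZMod M) • z := by
  rw [← zsmul_eq_mul, Int.cast_smul_eq_zsmul]

theorem IDXA_thm (hFULL : N_FULL) (hLEV : N_LEV) (hPAIR : N_PAIR) (hINT : N_INT) : N_IDXA := by
  intro n p q _ hq hp2 hq2 hne hqn hn R0 _ _ f x y hxy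
  have hp : p.Prime := Fact.out
  have hnd : ¬ (p : ℤ) ∣ pst q := by
    intro hd
    have h1 : (p : ℤ) ∣ q := by
      have h2 : (q : ℤ) = eps q * pst q := by
        unfold pst
        rw [← mul_assoc, eps_sq, one_mul]
      rw [h2]
      exact Dvd.dvd.mul_left hd _
    have h3 : p ∣ q := Int.natCast_dvd_natCast.1 h1
    exact hne ((Nat.prime_dvd_prime_iff_eq hp hq).1 h3)
  have hM : ∀ R : ℕ, Nat.Coprime q (p ^ R) := fun R =>
    Nat.Coprime.pow_right R ((Nat.coprime_primes hq hp).2 hne.symm)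
  have hNZ : ∀ R : ℕ, NeZero (p ^ R) := fun R => ⟨pow_ne_zero _ hp.ne_zero⟩
  choose sP hsP using hPAIR n q hq hq2 hqn R0
  obtain ⟨L, e, he⟩ := hLEV p hp2 x y hxy
  set F : G1n R0 →* Matrix.SpecialLinearGroup (Fin 2) ℚ_[p] :=
    (embf f hxy).comp (G1n R0).subtype with hF
  have hpair : ∀ (γ : G1n R0) (b' b : SS q),
      ((pst q : ℤ) : ℍ[R0]) * ((γ : unitary ℍ[R0]) : ℍ[R0]) = castn R0 (b'.val * b.val) →
      F γ ∈ KK p := fun γ b' b hγ => hINT R0 p f x y hxy γ (pst q) _ hnd hγ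
  have hval : ∀ (γ : G1n R0) (b' b : SS q)
      (_ : ((pst q : ℤ) : ℍ[R0]) * ((γ : unitary ℍ[R0]) : ℍ[R0]) = castn R0 (b'.val * b.val))
      (hm : F γ ∈ KK p) (R : ℕ), e R (L.ρ R ⟨F γ, hm⟩) = uM (p ^ R) (hM R) b' b := by
    intro γ b' b hγ hm R
    apply Subtype.ext
    have h1 := he R0 f γ (pst q) _ hnd hγ hm R
    have h2 : ((uM (p ^ R) (hM R) b' b : unitary ℍ[ZMod (p ^ R)]) : ℍ[ZMod (p ^ R)]) =
        ((((pst q : ℤ) : ZMod (p ^ R)))⁻¹) • redM (p ^ R) (b'.val * b.val) := rfl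
    rw [h2, ← h1, IDXA_coe_mul, smul_smul, mul_comm _ (((pst q : ℤ) : ZMod (p ^ R))),
      pst_unit (hM R), one_smul]
    rfl
  refine ⟨L, 1, fun k => ?_⟩
  have hle : Subgroup.closure {w | ∃ b' b : SS q, w = uM (p ^ k) (hM k) b' b} ≤
      (((F.range).subgroupOf (KK p)).map (L.ρ k)).map (e k : L.Q k →* _) := by
    rw [Subgroup.closure_le]
    rintro w ⟨b', b, rfl⟩
    have hm := hpair _ b' b (hsP b' b)
    exact ⟨L.ρ k ⟨F (sP b' b), hm⟩, ⟨⟨F (sP b' b), hm⟩, ⟨sP b' b, rfl⟩, rfl⟩,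
      hval _ b' b (hsP b' b) hm k⟩
  rw [hFULL q p hq hp hq2 hp2 hne.symm k (hM k)] at hle
  have htop : ((F.range).subgroupOf (KK p)).map (L.ρ k) = ⊤ := by
    rw [eq_top_iff]
    intro z _
    obtain ⟨w, hw, hwz⟩ := hle (Subgroup.mem_top (e k z))
    have : w = z := (e k).injective hwz
    rw [← this]
    exact hw
  rw [htop, Subgroup.index_top]

end TauSN
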