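import Mathlib
import Pool.Agent.Work.MP_972ac7_sn.Interface
import Pool.Agent.Work.MP_972ac7_sn.IDXA
import Pool.Agent.Work.MP_972ac7_sg.HSG

/-!
# Assembly: the strong spectral gap of the quaternion lattices over `ℤ[1/n]`
-/

open MeasureTheory Pool.TFD
open scoped Quaternion BigOperators ENNReal

namespace TauSN

open TauO (SS)
open TauSG

/-- the transversal lattice -/
noncomputable def trN (hTOPL : S_TOPL) (hTOP : N_TOP) (hCOV : N_COV) (hTRIV : N_TRIV) (n p : ℕ)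
    [Fact p.Prime] (hn : n ≠ 0) (hodd : ∀ l : ℕ, l.Prime → l ∣ n → l ≠ 2) (hp : p ∣ n)
    (R : Type) [CommRing R] [IsLocalization.Away (n : ℤ) R] (f0 : R →+* ℚ_[p]) {x0 y0 : ℤ_[p]}
    (h0 : IsSpl p x0 y0) (f : ∀ l : Pr n p, R →+* ℚ_[l.1]) {x y : ∀ l : Pr n p, ℤ_[l.1]}
    (hxy : ∀ l : Pr n p, IsSpl l.1 (x l) (y l)) :
    Trans (Matrix.SpecialLinearGroup (Fin 2) ℚ_[p]) (GBn n p) (G1n R) where
  KA := KK p
  KB := KBn n p
  α := (embf f0 h0).comp (G1n R).subtype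
  β := embB f hxy
  compA := (hTOPL p).2.2.2.1
  openA := (hTOPL p).2.2.2.2
  compB := (hTOP n p hn).2.2.2.2.2.1
  openB := (hTOP n p hn).2.2.2.2.2.2
  cover := fun u v => hCOV n p hn hodd hp R f0 x0 y0 h0 f x y hxy u v
  triv := fun γ h1 h2 => hTRIV n p hn hodd hp R f0 x0 y0 h0 f x y hxy γ h1 h2

/-- the map from the localization to the `l`-adic numbers -/
lemma exists_f (n l : ℕ) [Fact l.Prime] (hn : n ≠ 0) (R : Type) [CommRing R]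
    [IsLocalization.Away (n : ℤ) R] : Nonempty (R →+* ℚ_[l]) := by
  refine ⟨IsLocalization.Away.lift (R := ℤ) ((n : ℤ)) (g := Int.castRingHom ℚ_[l]) ?_⟩
  have h1 : (((n : ℕ) : ℤ) : ℚ_[l]) ≠ 0 := by exact_mod_cast hn
  exact IsUnit.mk0 _ h1

theorem HSG_thm (hDISC : S_DISC) (hMEA : S_MEA) (hONE : S_ONE) (hSG : S_SG) (hTOPL : S_TOPL)
    (hNOFD : S_NOFD) (hUNIM : S_UNIM) (hSPL : S_SPL) (hTOP : N_TOP) (hUNI : N_UNI)
    (hNB : N_NOFD) (hCOV : N_COV) (hTRIV : N_TRIV) (hGAPA : N_GAPA) (hIDXB : N_IDXB)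
    (hIDXA : N_IDXA) :
    N_HSG := by
  intro n p ip hn hodd hp hq R _ _
  obtain ⟨q, hq, hqn, hqp⟩ := hq
  have hp2 : p ≠ 2 := hodd p ip.out hp
  have hq2 : q ≠ 2 := hodd q hq hqn
  obtain ⟨x0, y0, h0⟩ := hSPL p hp2
  have hs : ∀ l : Pr n p, ∃ x y : ℤ_[l.1], IsSpl l.1 x y := fun l =>
    hSPL l.1 (hodd l.1 l.2.1 l.2.2.1)
  choose x y hxy using hs
  obtain ⟨f0⟩ := exists_f n p hn R
  let f : ∀ l : Pr n p, R →+* ℚ_[l.1] := fun l => (exists_f n l.1 hn R).some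
  have i1 := (hTOPL p).1
  have i2 := (hTOPL p).2.1
  have i3 := (hTOPL p).2.2.1
  have j0 := (hTOP n p hn).1
  have j1 := (hTOP n p hn).2.1
  have j2 := (hTOP n p hn).2.2.1
  have j3 := (hTOP n p hn).2.2.2.1
  have j4 := (hTOP n p hn).2.2.2.2.1
  let T := trN hTOPL hTOP hCOV hTRIV n p hn hodd hp R f0 h0 f hxy
  obtain ⟨L, c, s, hs, hc, hgap⟩ := hGAPA n p q hq hp2 hq2 hqp.symm hqn R f0 x0 y0 h0
  obtain ⟨L1, O1, hidx1⟩ := hIDXA n p q hq hp2 hq2 hqp.symm hqn hn R f0 x0 y0 h0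
  obtain ⟨LB, O, hidx⟩ := hIDXB n p hn hodd hp R f x y hxy
  have h1 := hONE _ _ _ T L1 O1 (hNOFD p) hidx1
  have h2 := hONE _ _ _ T.swap LB O (hNB n p hn) hidx
  obtain ⟨μA, hA1, hA2⟩ := exists_haar (KK p) (hTOPL p).2.2.2.1 (hTOPL p).2.2.2.2
  obtain ⟨μB, hB1, hB2⟩ := exists_haar (KBn n p) (hTOP n p hn).2.2.2.2.2.1
    (hTOP n p hn).2.2.2.2.2.2
  have hA3 := hUNIM p μA hA1
  have hB3 := hUNI n p hn μB hB1
  have hm := hMEA _ _ _ T μA μB hA1 hB1 hA3 hB3 hA2 hB2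
  have hd := hDISC _ _ _ T
  refine ⟨T, T.meas μA μB, hd.2, hd.1, hm.1, hm.2, h1.2, h2.2, ?_⟩
  exact hSG _ _ _ T L μA μB hA1 hB1 hA3 hB3 hA2 hB2 (SS q × SS q) s hs c hc hgap

end TauSN
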