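import Mathlib
import Pool.Agent.Work.MP_972ac7_sn.Interface

/-!
# IDXB: bounded index at all levels of the product (helper41)
-/

open MeasureTheory Pool.TFD
open scoped Quaternion BigOperators ENNReal

namespace TauSN

open TauQ (redM)
open TauO (SS pst uM eps)
open TauSG

theorem IDXB_coe_mul {M : ℕ} (a : ℤ) (z : ℍ[ZMod M]) :
    ((a : ℤ) : ℍ[ZMod M]) * z = ((a : ℤ) : ZMod M) • z := by
  rw [← zsmul_eq_mul, Int.cast_smul_eq_zsmul]

theorem IDXB_thm (hFULL : N_FULL) (hLEV : N_LEV) (hPAIR : N_PAIR) (hINT : N_INT)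
    (hGOU : N_GOU) (hPG : N_PG) (hLEVP : N_LEVP) : N_IDXB := by
  intro n p ip hn hodd hpn R _ _ f x y hxy
  classical
  have hfin : Finite (Pr n p) := by
    refine Finite.of_injective (β := Fin (n + 1))
      (fun l => ⟨l.1, Nat.lt_succ_of_le (Nat.le_of_dvd (Nat.pos_of_ne_zero hn) l.2.2.1)⟩) ?_
    intro a b hab
    exact Subtype.ext (by simpa using congrArg Fin.val hab)
  haveI : Fintype (Pr n p) := Fintype.ofFinite _
  have hp : p.Prime := ip.out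
  have hp2 : p ≠ 2 := hodd p hp hpn
  have hl2 : ∀ l : Pr n p, l.1 ≠ 2 := fun l => hodd l.1 l.2.1 l.2.2.1
  have hne : ∀ l : Pr n p, l.1 ≠ p := fun l => l.2.2.2
  haveI hNZ : ∀ (l : Pr n p) (k : ℕ), NeZero (l.1 ^ k) := fun l k =>
    ⟨pow_ne_zero _ l.2.1.ne_zero⟩
  have hnd : ∀ l : Pr n p, ¬ ((l.1 : ℕ) : ℤ) ∣ pst p := by
    intro l hd
    have h1 : ((l.1 : ℕ) : ℤ) ∣ p := by
      have h2 : (p : ℤ) = eps p * pst p := by
        unfold pst
        rw [← mul_assoc, TauO.eps_sq, one_mul]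
      rw [h2]
      exact Dvd.dvd.mul_left hd _
    have h3 : l.1 ∣ p := Int.natCast_dvd_natCast.1 h1
    exact hne l ((Nat.prime_dvd_prime_iff_eq l.2.1 hp).1 h3)
  have hM : ∀ (l : Pr n p) (k : ℕ), Nat.Coprime p (l.1 ^ k) := fun l k =>
    Nat.Coprime.pow_right k ((Nat.coprime_primes hp l.2.1).2 (hne l).symm)
  choose L e he using fun l : Pr n p => hLEV l.1 (hl2 l) (x l) (y l) (hxy l)
  obtain ⟨LB, r, eB, heB⟩ := hLEVP n p hn L
  choose c hc using fun l : Pr n p => hPG l.1 l.2.1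
  refine ⟨LB, (∏ l, c l) ^ Fintype.card (Pr n p), fun k => ?_⟩
  choose V hV1 hV2 hV3 using fun l : Pr n p => hc l (r k l)
  let E : LB.Q k ≃* (∀ l : Pr n p, unitary ℍ[ZMod (l.1 ^ (r k l))]) :=
    (eB k).trans (MulEquiv.piCongrRight fun l => e l (r k l))
  rw [← Subgroup.index_map_equiv
    ((((embB f hxy).range).subgroupOf (KBn n p)).map (LB.ρ k)) E]
  refine hGOU (Pr n p) (fun l => l.1) (fun l => l.2.1) Subtype.val_injective
    (fun l => unitary ℍ[ZMod (l.1 ^ (r k l))]) V c hV1 hV2 hV3 _ ?_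
  intro i z
  set D : Subgroup (∀ l : Pr n p, unitary ℍ[ZMod (l.1 ^ (r k l))]) :=
    ((((embB f hxy).range).subgroupOf (KBn n p)).map (LB.ρ k)).map (E : LB.Q k →* _) with hD
  have hle : Subgroup.closure {w | ∃ b' b : SS p, w = uM (i.1 ^ (r k i)) (hM i (r k i)) b' b} ≤
      D.map (Pi.evalMonoidHom (fun l : Pr n p => unitary ℍ[ZMod (l.1 ^ (r k l))]) i) := by
    rw [Subgroup.closure_le]
    rintro w ⟨b', b, rfl⟩
    obtain ⟨γ, hγ⟩ := hPAIR n p hp hp2 hpn R b' b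
    have hmem : ∀ l : Pr n p, embf (f l) (hxy l) (γ : unitary ℍ[R]) ∈ KK l.1 := fun l =>
      hINT R l.1 (f l) (x l) (y l) (hxy l) γ (pst p) _ (hnd l) hγ
    have hB : embB f hxy γ ∈ KBn n p := (Subgroup.mem_pi (Set.univ : Set (Pr n p))).2
      fun l _ => hmem l
    refine ⟨E (LB.ρ k ⟨embB f hxy γ, hB⟩), ⟨LB.ρ k ⟨embB f hxy γ, hB⟩,
      ⟨⟨embB f hxy γ, hB⟩, ⟨γ, rfl⟩, rfl⟩, rfl⟩, ?_⟩
    have h0 : (Pi.evalMonoidHom (fun l : Pr n p => unitary ℍ[ZMod (l.1 ^ (r k l))]) i)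
        (E (LB.ρ k ⟨embB f hxy γ, hB⟩)) =
        e i (r k i) (eB k (LB.ρ k ⟨embB f hxy γ, hB⟩) i) := rfl
    rw [h0, heB]
    have h00 : (⟨((⟨embB f hxy γ, hB⟩ : KBn n p) : GBn n p) i,
        mem_KBn (⟨embB f hxy γ, hB⟩ : KBn n p) i⟩ : KK i.1) =
        ⟨embf (f i) (hxy i) (γ : unitary ℍ[R]), hmem i⟩ := rfl
    rw [h00]
    apply Subtype.ext
    have h1 := he i R (f i) γ (pst p) _ (hnd i) hγ (hmem i) (r k i)
    have h2 : ((uM (i.1 ^ (r k i)) (hM i (r k i)) b' b : unitary ℍ[ZMod (i.1 ^ (r k i))]) :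
        ℍ[ZMod (i.1 ^ (r k i))]) =
        ((((pst p : ℤ) : ZMod (i.1 ^ (r k i))))⁻¹) •
          redM (i.1 ^ (r k i)) (b'.val * b.val) := rfl
    rw [h2, ← h1, IDXB_coe_mul, smul_smul, mul_comm _ (((pst p : ℤ) : ZMod (i.1 ^ (r k i)))),
      TauO.pst_unit (hM i (r k i)), one_smul]
  have htop := hFULL p i.1 hp i.2.1 hp2 (hl2 i) (hne i).symm (r k i) (hM i (r k i))
  rw [htop] at hle
  obtain ⟨d, hd, hdz⟩ := hle (Subgroup.mem_top z)
  exact ⟨d, hd, hdz⟩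

end TauSN
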