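import Mathlib
import Pool.Agent.Work.MP_972ac7_sn.Interface

/-! # MP_972ac7_al, general n, block INT: integrality of the embedding (helper17, after helper94) -/

set_option autoImplicit false

open MeasureTheory Pool.TFD
open scoped Quaternion BigOperators ENNReal

namespace TauSN

open TauQ (redM)
open TauO (SS pst uM)
open TauSG

lemma INT_comp {R : Type} [CommRing R] {l : ℕ} [Fact l.Prime] (f : R →+* ℚ_[l]) (u : ℤ_[l])
    (d a : ℤ) (c : R) (hu : u * (d : ℤ_[l]) = 1) (e : ((d : ℤ) : R) * c = Int.castRingHom R a) :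
    f c = ((u * (a : ℤ_[l]) : ℤ_[l]) : ℚ_[l]) := by
  have e1 := congrArg f e
  rw [map_mul, map_intCast, eq_intCast, map_intCast] at e1
  have hu' : (u : ℚ_[l]) * (d : ℚ_[l]) = 1 := by
    have := congrArg (fun z : ℤ_[l] => (z : ℚ_[l])) hu
    simpa using this
  push_cast
  rw [← e1, ← mul_assoc, hu', one_mul]

/-- the matrix of a quaternion is functorial -/
lemma INT_matQ {R S : Type} [CommRing R] [CommRing S] (f : R →+* S) (x y : R) (z : ℍ[R]) :
    (matQ x y z).map f = matQ (f x) (f y) (TauQ.qmap f z) := by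
  ext i j
  fin_cases i <;> fin_cases j <;> simp [matQ]

theorem INT_thm : N_INT := by
  intro R _ l _ f x y hxy γ d α hd he
  have hd1 : IsUnit ((d : ℤ) : ℤ_[l]) := by
    rw [PadicInt.isUnit_iff]
    refine le_antisymm (PadicInt.norm_le_one _) ?_
    by_contra hcon
    push Not at hcon
    exact hd ((PadicInt.norm_int_lt_one_iff_dvd d).1 hcon)
  obtain ⟨u, hu⟩ := hd1.exists_left_inv
  have e0 : ((d : ℤ) : R) * (γ : ℍ[R]).re = Int.castRingHom R α.re := by
    have := congrArg (fun z : ℍ[R] => z.re) he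
    simpa [castn] using this
  have e1 : ((d : ℤ) : R) * (γ : ℍ[R]).imI = Int.castRingHom R α.imI := by
    have := congrArg (fun z : ℍ[R] => z.imI) he
    simpa [castn] using this
  have e2 : ((d : ℤ) : R) * (γ : ℍ[R]).imJ = Int.castRingHom R α.imJ := by
    have := congrArg (fun z : ℍ[R] => z.imJ) he
    simpa [castn] using this
  have e3 : ((d : ℤ) : R) * (γ : ℍ[R]).imK = Int.castRingHom R α.imK := by
    have := congrArg (fun z : ℍ[R] => z.imK) he
    simpa [castn] using this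
  obtain ⟨ζ, hζ⟩ : ∃ ζ : ℍ[ℤ_[l]], ζ = TauQ.mk4 (u * (α.re : ℤ_[l])) (u * (α.imI : ℤ_[l]))
    (u * (α.imJ : ℤ_[l])) (u * (α.imK : ℤ_[l])) := ⟨_, rfl⟩
  have hz : TauQ.qmap (algebraMap ℤ_[l] ℚ_[l]) ζ = TauQ.qmap f (γ : ℍ[R]) := by
    rw [hζ]
    ext
    · exact (INT_comp f u d _ _ hu e0).symm
    · exact (INT_comp f u d _ _ hu e1).symm
    · exact (INT_comp f u d _ _ hu e2).symm
    · exact (INT_comp f u d _ _ hu e3).symm
  have hmat : (matQ x y ζ).map (algebraMap ℤ_[l] ℚ_[l]) =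
      matQ (x : ℚ_[l]) (y : ℚ_[l]) (TauQ.qmap f (γ : ℍ[R])) := by
    rw [INT_matQ, hz]
    rfl
  have hdet : (matQ x y ζ).det = 1 := by
    rw [matQ_det hxy]
    have h1 : Quaternion.normSq (TauQ.qmap (algebraMap ℤ_[l] ℚ_[l]) ζ) = 1 := by
      rw [hz, TauQ.normSq_qmap, (TauQ.mem_unitary_iff _).1 γ.2, map_one]
    rw [TauQ.normSq_qmap] at h1
    have h2 : algebraMap ℤ_[l] ℚ_[l] (Quaternion.normSq ζ) = algebraMap ℤ_[l] ℚ_[l] 1 := by
      rw [h1, map_one]
    exact (IsFractionRing.injective ℤ_[l] ℚ_[l]) h2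
  refine ⟨⟨matQ x y ζ, hdet⟩, ?_⟩
  apply Subtype.ext
  show (matQ x y ζ).map (algebraMap ℤ_[l] ℚ_[l]) = _
  rw [hmat]
  rfl

end TauSN
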