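import Mathlib
import Pool.Agent.Work.MP_972ac7_sn.Interface
import Pool.Agent.Work.MP_972ac7_sg.LEV

/-!
# Block LEV: the levels of `SL2(Z_l)`, general ring (helper50, after helper54's sg/LEV)
-/

set_option autoImplicit false

open MeasureTheory
open scoped Quaternion BigOperators ENNReal

namespace TauSN

open TauQ (redM qmap mk4)
open TauSG TauSG.LevAux

theorem LEV_thm : N_LEV := by
  intro l _ hl x y hxy
  have hprime : l.Prime := Fact.out
  let L : Levels (KK l) :=
    { Q := fun R => unitary ℍ[ZMod (l ^ R)]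
      grp := fun R => inferInstance
      fin := fun R => by
        haveI : NeZero (l ^ R) := ⟨pow_ne_zero R hprime.ne_zero⟩
        exact Fintype.ofFinite _
      ρ := fun R => rho hl hxy R
      surj := fun R => rho_surj hl hxy R
      op := by
        intro R
        rw [set_eq hl hxy R]
        simp only [Set.ofPred_forall]
        refine isOpen_iInter_of_finite fun i => isOpen_iInter_of_finite fun j => ?_
        have hc : Continuous fun g : Matrix.SpecialLinearGroup (Fin 2) ℚ_[l] =>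
            (g : Matrix (Fin 2) (Fin 2) ℚ_[l]) i j :=
          (continuous_subtype_val).matrix_elem i j
        have ho : IsOpen (Metric.closedBall ((1 : Matrix (Fin 2) (Fin 2) ℚ_[l]) i j)
            ((l : ℝ) ^ (-R : ℤ))) := by
          apply IsUltrametricDist.isOpen_closedBall
          apply zpow_ne_zero
          exact_mod_cast hprime.ne_zero
        have := ho.preimage hc
        convert this using 1
        ext g
        simp [Metric.mem_closedBall, dist_eq_norm]
      basis := by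
        intro V hV
        have hind : Topology.IsInducing (fun g : Matrix.SpecialLinearGroup (Fin 2) ℚ_[l] =>
            (g : Matrix (Fin 2) (Fin 2) ℚ_[l])) := Topology.IsInducing.subtypeVal
        rw [hind.nhds_eq_comap, Filter.mem_comap] at hV
        obtain ⟨u, hu, huV⟩ := hV
        have hu' : (u : Set (Fin 2 → Fin 2 → ℚ_[l])) ∈
            nhds (fun i j => (1 : Matrix (Fin 2) (Fin 2) ℚ_[l]) i j) := hu
        obtain ⟨ε, hε, hball⟩ := Metric.mem_nhds_iff.1 hu'
        obtain ⟨R, hR⟩ : ∃ R : ℕ, (l : ℝ) ^ (-R : ℤ) < ε := by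
          have h1 : ((l : ℝ)⁻¹) < 1 := by
            apply inv_lt_one_of_one_lt₀
            exact_mod_cast hprime.one_lt
          obtain ⟨R, hR⟩ := exists_pow_lt_of_lt_one hε h1
          refine ⟨R, ?_⟩
          rw [zpow_neg, zpow_natCast, ← inv_pow]
          exact hR
        refine ⟨R, fun k hk => huV ?_⟩
        have h1 := (rho_one_iff hl hxy R k).1 hk
        have h2 : (fun i j => ((k : Matrix.SpecialLinearGroup (Fin 2) ℚ_[l]) :
            Matrix (Fin 2) (Fin 2) ℚ_[l]) i j : Fin 2 → Fin 2 → ℚ_[l]) ∈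
            Metric.ball (fun i j => (1 : Matrix (Fin 2) (Fin 2) ℚ_[l]) i j) ε := by
          refine Metric.mem_ball.2 ((dist_pi_lt_iff hε).2 fun i => (dist_pi_lt_iff hε).2 fun j => ?_)
          exact lt_of_le_of_lt (le_of_eq (dist_eq_norm _ _)) (lt_of_le_of_lt (h1 i j) hR)
        exact hball h2 }
  refine ⟨L, fun R => MulEquiv.refl _, ?_⟩
  intro R _ f γ d α hd hγ hm k
  obtain ⟨w, hw⟩ := (FK hl hxy).surjective ⟨embf f hxy γ, hm⟩
  show ((d : ℤ) : ℍ[ZMod (l ^ k)]) *
    (rho hl hxy k ⟨embf f hxy γ, hm⟩ : ℍ[ZMod (l ^ k)]) = redM (l ^ k) α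
  rw [← hw, rho_FK]
  show ((d : ℤ) : ℍ[ZMod (l ^ k)]) * qmap (PadicInt.toZModPow k) (w : ℍ[ℤ_[l]]) = _
  obtain ⟨t, ht⟩ := exists_half (l := l) hl
  have hcoe : ∀ a : ℤ_[l], algebraMap ℤ_[l] ℚ_[l] a = (a : ℚ_[l]) := fun a => rfl
  have ht' : 2 * (t : ℚ_[l]) = 1 := by
    have := congrArg (algebraMap ℤ_[l] ℚ_[l]) ht
    rw [map_mul, map_one, show (2 : ℤ_[l]) = ((2 : ℕ) : ℤ_[l]) from by norm_cast,
      map_natCast] at this
    simpa using this
  -- the two quaternions over ℚ_l agree
  have h1 : qmap (algebraMap ℤ_[l] ℚ_[l]) (w : ℍ[ℤ_[l]]) =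
      qmap f (γ : ℍ[R]) := by
    apply matQ_inj ht' hxy.coe
    have h2 : (F hxy w : Matrix.SpecialLinearGroup (Fin 2) ℚ_[l]) = embf f hxy γ :=
      congrArg Subtype.val hw
    have h3 := congrArg (fun g : Matrix.SpecialLinearGroup (Fin 2) ℚ_[l] =>
      (g : Matrix (Fin 2) (Fin 2) ℚ_[l])) h2
    have h4 : (F hxy w : Matrix (Fin 2) (Fin 2) ℚ_[l]) =
        matQ (x : ℚ_[l]) (y : ℚ_[l]) (qmap (algebraMap ℤ_[l] ℚ_[l]) (w : ℍ[ℤ_[l]])) := by
      have := matQ_qmap (algebraMap ℤ_[l] ℚ_[l]) x y (w : ℍ[ℤ_[l]])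
      rw [hcoe, hcoe] at this
      rw [this]
      rfl
    rw [← h4]
    exact h3
  have h5 : ((d : ℤ) : ℍ[ℤ_[l]]) * (w : ℍ[ℤ_[l]]) = qmap (Int.castRingHom ℤ_[l]) α := by
    apply qmap_inj (coe_inj (l := l))
    rw [map_mul, map_intCast, h1, qmap_comp]
    have h6 := congrArg (qmap f) hγ
    rw [map_mul, map_intCast] at h6
    rw [h6, castn, qmap_comp]
    congr 1
    exact congrArg qmap (RingHom.ext_int _ _)
  have h7 := congrArg (qmap (PadicInt.toZModPow (p := l) k)) h5
  rw [map_mul, map_intCast, qmap_comp] at h7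
  rw [h7, redM]
  congr 1
  exact congrArg qmap (RingHom.ext_int _ _)

end TauSN
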