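import Mathlib
import Pool.Agent.Work.MP_972ac7_sn.Interface

/-!
# LEVP: the levels of the product (helper78)
-/

open MeasureTheory Pool.TFD
open scoped Quaternion BigOperators ENNReal

namespace TauSN

open TauSG

namespace LEVPAux

variable {ι : Type} [Finite ι] {G : ι → Type} [∀ i, Group (G i)] [∀ i, TopologicalSpace (G i)]
  (K : ∀ i, Subgroup (G i))

theorem mem (z : Subgroup.pi Set.univ K) (i : ι) : (z : ∀ i, G i) i ∈ K i :=
  (Subgroup.mem_pi Set.univ).1 z.2 i (Set.mem_univ i)

/-- the projections of the product -/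
def proj (i : ι) : Subgroup.pi Set.univ K →* K i where
  toFun z := ⟨(z : ∀ i, G i) i, mem K z i⟩
  map_one' := rfl
  map_mul' _ _ := rfl

variable (L : ∀ i, Levels (K i)) (r : ℕ → ι → ℕ)

/-- the map to the product of the levels -/
def rho (k : ℕ) : Subgroup.pi Set.univ K →* (∀ i, (L i).Q (r k i)) where
  toFun z i := (L i).ρ (r k i) (proj K i z)
  map_one' := by
    funext i
    rw [map_one, map_one]
    rfl
  map_mul' x y := by
    funext i
    rw [map_mul, map_mul]
    rfl

theorem rho_eq_one (k : ℕ) (z : Subgroup.pi Set.univ K) :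
    rho K L r k z = 1 ↔ ∀ i, (L i).ρ (r k i) (proj K i z) = 1 := by
  constructor
  · intro h i
    have h1 := congrFun h i
    rw [Pi.one_apply] at h1
    exact h1
  · intro h
    funext i
    rw [Pi.one_apply]
    exact h i

/-- the levels of the product -/
noncomputable def lev (hr : Function.Surjective r) : Levels (Subgroup.pi Set.univ K) where
  Q k := ∀ i, (L i).Q (r k i)
  grp k := Pi.group
  fin k := Fintype.ofFinite _
  ρ := rho K L r
  surj := by
    intro k y
    choose z hz using fun i => (L i).surj (r k i) (y i)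
    refine ⟨⟨fun i => (z i : G i), (Subgroup.mem_pi Set.univ).2 fun i _ => (z i).2⟩, ?_⟩
    funext i
    exact hz i
  op := by
    intro k
    have h1 : {g : ∀ i, G i | ∃ z : Subgroup.pi Set.univ K, rho K L r k z = 1 ∧ (z : ∀ i, G i) = g} =
        Set.pi Set.univ (fun i => {g : G i | ∃ z : K i, (L i).ρ (r k i) z = 1 ∧ (z : G i) = g}) := by
      ext g
      constructor
      · rintro ⟨z, hz, rfl⟩ i -
        exact ⟨proj K i z, (rho_eq_one K L r k z).1 hz i, rfl⟩
      · intro hg
        have h2 : ∀ i, ∃ z : K i, (L i).ρ (r k i) z = 1 ∧ (z : G i) = g i :=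
          fun i => hg i (Set.mem_univ i)
        choose z hz1 hz2 using h2
        have hm : g ∈ Subgroup.pi Set.univ K := (Subgroup.mem_pi Set.univ).2 fun i _ => by
          rw [← hz2 i]
          exact (z i).2
        refine ⟨⟨g, hm⟩, (rho_eq_one K L r k _).2 fun i => ?_, rfl⟩
        have h3 : proj K i ⟨g, hm⟩ = z i := Subtype.ext (hz2 i).symm
        rw [h3]
        exact hz1 i
    rw [h1]
    exact isOpen_set_pi Set.finite_univ fun i _ => (L i).op (r k i)
  basis := by
    intro V hV
    rw [nhds_pi, Filter.mem_pi'] at hV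
    obtain ⟨I, t, ht, htV⟩ := hV
    choose R hR using fun i => (L i).basis (t i) (ht i)
    obtain ⟨k, hk⟩ := hr R
    refine ⟨k, fun z hz => htV fun i _ => ?_⟩
    have h1 := (rho_eq_one K L r k z).1 hz i
    rw [hk] at h1
    exact hR i _ h1

end LEVPAux

theorem LEVP_finite (n p : ℕ) (hn : n ≠ 0) : Finite (Pr n p) := by
  refine Finite.of_injective (β := Fin (n + 1))
    (fun l => ⟨l.1, Nat.lt_succ_of_le (Nat.le_of_dvd (Nat.pos_of_ne_zero hn) l.2.2.1)⟩) ?_
  intro a b hab
  exact Subtype.ext (by simpa using congrArg Fin.val hab)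

theorem LEVP_thm : N_LEVP := by
  intro n p hn L
  have hfin : Finite (Pr n p) := LEVP_finite n p hn
  obtain ⟨r, hr⟩ := exists_surjective_nat (Pr n p → ℕ)
  exact ⟨LEVPAux.lev (fun l : Pr n p => KK l.1) L r hr, r, fun k => MulEquiv.refl _,
    fun k z l => rfl⟩

end TauSN
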