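import Mathlib
import Pool.Agent.Work.MP_972ac7_sn.Interface

/-!
# Block NOFD: the product of the `SL2(ℚ_l)` has no nontrivial finite dimensional unitary
representations
-/

open MeasureTheory Pool.TFD
open scoped Quaternion BigOperators ENNReal

namespace TauSN

open TauSG

theorem NOFD_thm (h : S_NOFD) (h2 : N_TOP) : N_NOFD := by
  intro n p hn d ρ hρ g
  obtain ⟨hfin, -⟩ := h2 n p hn
  classical
  have key : ρ = 1 := by
    apply MonoidHom.pi_ext
    intro l u
    have hc : Continuous (fun u : Matrix.SpecialLinearGroup (Fin 2) ℚ_[l.1] =>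
        (Pi.mulSingle l u : GBn n p)) :=
      continuous_mulSingle (A := fun l : Pr n p => Matrix.SpecialLinearGroup (Fin 2) ℚ_[l.1]) l
    exact h l.1 d (ρ.comp (MonoidHom.mulSingle
      (fun l : Pr n p => Matrix.SpecialLinearGroup (Fin 2) ℚ_[l.1]) l)) (hρ.comp hc) u
  rw [key]
  rfl

end TauSN
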