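import Mathlib
import Pool.Agent.Work.MP_972ac7_sn.Interface

/-!
# Block PAIR (general n): the pairs of letters are in the group (helper75, after helper70)
-/

set_option autoImplicit false

open scoped Quaternion BigOperators

namespace TauSN

open TauQ (redM)
open TauO (SS pst uM)
open TauSG

lemma PAIR_pst_mod {r : ℕ} (hr : r.Prime) (hr2 : r ≠ 2) : pst r % 4 = 1 := by
  have h1 : r % 2 = 1 := by
    rcases hr.eq_two_or_odd with h | h
    · exact absurd h hr2
    · exact h
  unfold pst TauO.eps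
  split_ifs with h
  · omega
  · omega

lemma PAIR_unit (n r : ℕ) (hr : r ∣ n) (R : Type) [CommRing R] [IsLocalization.Away (n : ℤ) R] :
    IsUnit ((pst r : ℤ) : R) := by
  have h1 : IsUnit ((algebraMap ℤ R) (n : ℤ)) :=
    IsLocalization.Away.algebraMap_isUnit (S := R) (n : ℤ)
  obtain ⟨m, rfl⟩ := hr
  have h2 : (algebraMap ℤ R) (((r * m : ℕ) : ℤ)) = (r : R) * (m : R) := by
    rw [eq_intCast]
    push_cast
    rfl
  rw [h2] at h1
  have h3 : IsUnit (r : R) := isUnit_of_mul_isUnit_left h1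
  have h4 : IsUnit ((TauO.eps r : ℤ) : R) := by
    apply IsUnit.of_mul_eq_one ((TauO.eps r : ℤ) : R)
    rw [← Int.cast_mul, TauO.eps_sq, Int.cast_one]
  unfold pst
  rw [Int.cast_mul, Int.cast_natCast]
  exact h4.mul h3

theorem PAIR_thm : N_PAIR := by
  intro n r hr hr2 hrn R _ _ b' b
  have hu := PAIR_unit n r hrn R
  obtain ⟨v, hv⟩ := hu.exists_right_inv
  have hnorm : Quaternion.normSq (v • castn R (b'.val * b.val)) = 1 := by
    rw [Quaternion.normSq_smul, castn, TauQ.normSq_qmap, map_mul, b'.norm, b.norm]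
    have h2 : ((pst r : ℤ) : R) * ((pst r : ℤ) : R) = (r : R) * r := by
      rw [← Int.cast_mul, TauO.pst_sq]
      push_cast
      ring
    have h3 : (Int.castRingHom R) ((r : ℤ) * (r : ℤ)) = (r : R) * r := by
      rw [eq_intCast]
      push_cast
      ring
    rw [h3, ← h2]
    calc v ^ 2 * (((pst r : ℤ) : R) * ((pst r : ℤ) : R))
        = (((pst r : ℤ) : R) * v) ^ 2 := by ring
      _ = 1 := by rw [hv, one_pow]
  have hx : ((pst r : ℤ) : ℍ[R]) * (v • castn R (b'.val * b.val)) =
      castn R (b'.val * b.val) := by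
    have h1 : ((pst r : ℤ) : ℍ[R]) = (((pst r : ℤ) : R) : ℍ[R]) := by
      rw [Quaternion.coe_intCast]
    rw [h1, Quaternion.coe_mul_eq_smul, smul_smul, hv, one_smul]
  exact ⟨⟨⟨v • castn R (b'.val * b.val), (TauQ.mem_unitary_iff _).2 hnorm⟩,
    pst r, b'.val * b.val, PAIR_pst_mod hr hr2, hu, SS.mul_old b' b, hx⟩, hx⟩

end TauSN
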