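import Mathlib
import Pool.Agent.Work.MP_972ac7_sn.Interface

/-! # Block PG (helper25): congruence kernels are `l`-groups -/

set_option autoImplicit false
set_option linter.style.haveILetI false

open scoped Quaternion

namespace TauSN

open TauSG

theorem PG_pow {A : Type*} [Ring A] (x : A) (m n : ℕ) :
    ∃ w : A, (1 + m • x) ^ n = 1 + (n * m) • x + (m ^ 2) • w := by
  induction n with
  | zero => exact ⟨0, by simp⟩
  | succ n ih =>
    obtain ⟨w, hw⟩ := ih
    refine ⟨n • (x * x) + w + m • (w * x), ?_⟩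
    rw [pow_succ, hw]
    simp only [add_mul, mul_add, one_mul, mul_one, smul_mul_assoc, mul_smul_comm, smul_smul,
      smul_add]
    module

theorem PG_pow2 {A : Type*} [Ring A] (l : ℕ) (x : A) (j : ℕ) :
    ∃ z : A, (1 + l • x) ^ (l ^ j) = 1 + (l ^ (j + 1)) • z := by
  induction j with
  | zero => exact ⟨x, by simp⟩
  | succ j ih =>
    obtain ⟨z, hz⟩ := ih
    obtain ⟨w, hw⟩ := PG_pow z (l ^ (j + 1)) l
    refine ⟨z + (l ^ j) • w, ?_⟩
    rw [pow_succ, pow_mul, hz, hw, smul_add, smul_smul, ← add_assoc]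
    congr 2
    · congr 1
      ring
    · ring

theorem PG_ker (l k : ℕ) (hl : l ≠ 0) (hk : k ≠ 0) (a : ZMod (l ^ k))
    (h : ZMod.castHom (dvd_pow_self l hk) (ZMod l) a = 0) :
    ∃ b : ZMod (l ^ k), a = (l : ZMod (l ^ k)) * b := by
  haveI : NeZero l := ⟨hl⟩
  haveI : NeZero (l ^ k) := ⟨pow_ne_zero k hl⟩
  have h1 : ((a.val : ℕ) : ZMod l) = 0 := by
    rw [← h]
    conv_rhs => rw [← ZMod.natCast_zmod_val a]
    rw [map_natCast]
  rw [ZMod.natCast_eq_zero_iff] at h1
  obtain ⟨c, hc⟩ := h1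
  refine ⟨(c : ZMod (l ^ k)), ?_⟩
  rw [← Nat.cast_mul, ← hc, ZMod.natCast_zmod_val]

theorem PG_fin (l : ℕ) [NeZero l] : Finite (unitary ℍ[ZMod l]) := by
  have h : Finite ℍ[ZMod l] := by
    refine Finite.of_injective (fun q : ℍ[ZMod l] => (q.re, q.imI, q.imJ, q.imK)) ?_
    intro q q' h
    simp only [Prod.mk.injEq] at h
    exact QuaternionAlgebra.ext h.1 h.2.1 h.2.2.1 h.2.2.2
  exact inferInstance

theorem PG_thm : N_PG := by
  intro l hl
  haveI : Fact l.Prime := ⟨hl⟩
  haveI : NeZero l := ⟨hl.ne_zero⟩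
  haveI := PG_fin l
  refine ⟨Nat.card (unitary ℍ[ZMod l]), fun k _ => ?_⟩
  by_cases hk : k = 0
  · subst hk
    haveI h0 : Subsingleton (ZMod (l ^ 0)) := by
      rw [pow_zero]
      infer_instance
    haveI h1 : Subsingleton ℍ[ZMod (l ^ 0)] := ⟨fun q q' =>
      QuaternionAlgebra.ext (Subsingleton.elim _ _) (Subsingleton.elim _ _)
        (Subsingleton.elim _ _) (Subsingleton.elim _ _)⟩
    refine ⟨⊤, inferInstance, fun g => ⟨0, Subsingleton.elim _ _⟩, ?_⟩
    rw [Subgroup.index_top]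
    exact Nat.card_pos
  · set f := ZMod.castHom (dvd_pow_self l hk) (ZMod l) with hf
    refine ⟨(unitQ f).ker, inferInstance, ?_, ?_⟩
    · rintro ⟨g, hg⟩
      rw [MonoidHom.mem_ker] at hg
      have hg1 : TauQ.qmap f (g : ℍ[ZMod (l ^ k)]) = 1 := congrArg Subtype.val hg
      have e0 : f ((g : ℍ[ZMod (l ^ k)]).re - 1) = 0 := by
        have := congrArg QuaternionAlgebra.re hg1
        rw [map_sub, map_one, sub_eq_zero]
        exact this
      have e1 : f (g : ℍ[ZMod (l ^ k)]).imI = 0 := congrArg QuaternionAlgebra.imI hg1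
      have e2 : f (g : ℍ[ZMod (l ^ k)]).imJ = 0 := congrArg QuaternionAlgebra.imJ hg1
      have e3 : f (g : ℍ[ZMod (l ^ k)]).imK = 0 := congrArg QuaternionAlgebra.imK hg1
      obtain ⟨b0, h0⟩ := PG_ker l k hl.ne_zero hk _ e0
      obtain ⟨b1, h1⟩ := PG_ker l k hl.ne_zero hk _ e1
      obtain ⟨b2, h2⟩ := PG_ker l k hl.ne_zero hk _ e2
      obtain ⟨b3, h3⟩ := PG_ker l k hl.ne_zero hk _ e3
      set y : ℍ[ZMod (l ^ k)] := QuaternionAlgebra.mk b0 b1 b2 b3 with hydef
      have hy : (g : ℍ[ZMod (l ^ k)]) = 1 + l • y := by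
        rw [← Nat.cast_smul_eq_nsmul (ZMod (l ^ k)) l y]
        ext
        · rw [Quaternion.re_add, Quaternion.re_smul, Quaternion.re_one, smul_eq_mul]
          show _ = 1 + (l : ZMod (l ^ k)) * b0
          rw [← h0]
          ring
        · rw [Quaternion.imI_add, Quaternion.imI_smul, Quaternion.imI_one, smul_eq_mul, h1]
          show _ = 0 + (l : ZMod (l ^ k)) * b1
          ring
        · rw [Quaternion.imJ_add, Quaternion.imJ_smul, Quaternion.imJ_one, smul_eq_mul, h2]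
          show _ = 0 + (l : ZMod (l ^ k)) * b2
          ring
        · rw [Quaternion.imK_add, Quaternion.imK_smul, Quaternion.imK_one, smul_eq_mul, h3]
          show _ = 0 + (l : ZMod (l ^ k)) * b3
          ring
      obtain ⟨z, hz⟩ := PG_pow2 l y k
      refine ⟨k, ?_⟩
      apply Subtype.ext
      apply Subtype.ext
      show ((g : ℍ[ZMod (l ^ k)])) ^ (l ^ k) = 1
      rw [hy, hz]
      have h4 : ((l ^ (k + 1) : ℕ) : ZMod (l ^ k)) = 0 := by
        rw [ZMod.natCast_eq_zero_iff]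
        exact pow_dvd_pow l (Nat.le_succ k)
      have h5 : (l ^ (k + 1)) • z = 0 := by
        rw [← Nat.cast_smul_eq_nsmul (ZMod (l ^ k)) (l ^ (k + 1)) z, h4, zero_smul]
      rw [h5, add_zero]
    · rw [Subgroup.index_ker]
      exact Subgroup.card_le_card_group _

end TauSN
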