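import Mathlib
import Pool.Agent.Work.MP_972ac7_sn.Interface

/-! # Block TOP (helper25): topology of the product -/

set_option autoImplicit false
set_option linter.style.haveILetI false

open scoped Quaternion
open MeasureTheory

namespace TauSN

open TauSG

theorem TOP_thm (h : TauSG.S_TOPL) : N_TOP := by
  intro n p hn
  have hfin : Finite (Pr n p) := by
    refine Finite.of_injective (fun l : Pr n p =>
      (⟨l.1, Nat.mem_divisors.2 ⟨l.2.2.1, hn⟩⟩ : {m : ℕ // m ∈ n.divisors})) ?_
    intro l l' e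
    apply Subtype.ext
    exact congrArg (fun m : {m : ℕ // m ∈ n.divisors} => m.1) e
  haveI := hfin
  haveI h1 : ∀ l : Pr n p, LocallyCompactSpace (Matrix.SpecialLinearGroup (Fin 2) ℚ_[l.1]) :=
    fun l => (h l.1).1
  haveI h2 : ∀ l : Pr n p,
      SecondCountableTopology (Matrix.SpecialLinearGroup (Fin 2) ℚ_[l.1]) :=
    fun l => (h l.1).2.1
  haveI h3 : ∀ l : Pr n p, T2Space (Matrix.SpecialLinearGroup (Fin 2) ℚ_[l.1]) :=
    fun l => (h l.1).2.2.1
  have e : (KBn n p : Set (GBn n p)) = Set.univ.pi fun l => (KK l.1 : Set _) :=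
    Subgroup.coe_pi _ _
  refine ⟨hfin, inferInstance, inferInstance, inferInstance, inferInstance, ?_, ?_⟩
  · rw [e]
    exact isCompact_univ_pi fun l => (h l.1).2.2.2.1
  · rw [e]
    exact isOpen_set_pi Set.finite_univ fun l _ => (h l.1).2.2.2.2

end TauSN
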