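import Mathlib
import Pool.Agent.Work.MP_972ac7_sn.Interface

/-!
# Block TRIV: an element of the lattice which is integral at all primes dividing `n` is trivial
-/

open MeasureTheory Pool.TFD
open scoped Quaternion BigOperators ENNReal

namespace TauSN

open TauQ (redM)
open TauO
open TauSG

lemma TRIV_cancel {R : Type} [CommRing R] (n : ℤ) (hn : IsUnit (n : R)) (x y : ℍ[R])
    (h : (n : ℍ[R]) * x = (n : ℍ[R]) * y) : x = y := by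
  have h1 := hn.map (algebraMap R ℍ[R])
  rw [map_intCast] at h1
  exact h1.mul_left_cancel h

lemma TRIV_comp {R : Type} [CommRing R] (n : ℤ) (z : ℍ[R]) (α : ℍ[ℤ])
    (h : (n : ℍ[R]) * z = castn R α) :
    (n : R) * z.re = ((α.re : ℤ) : R) ∧ (n : R) * z.imI = ((α.imI : ℤ) : R) ∧
    (n : R) * z.imJ = ((α.imJ : ℤ) : R) ∧ (n : R) * z.imK = ((α.imK : ℤ) : R) := by
  have e1 := congrArg (fun w : ℍ[R] => w.re) h
  have e2 := congrArg (fun w : ℍ[R] => w.imI) h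
  have e3 := congrArg (fun w : ℍ[R] => w.imJ) h
  have e4 := congrArg (fun w : ℍ[R] => w.imK) h
  refine ⟨?_, ?_, ?_, ?_⟩
  · simpa [castn] using e1
  · simpa [castn] using e2
  · simpa [castn] using e3
  · simpa [castn] using e4

lemma TRIV_dvd (l : ℕ) [Fact l.Prime] (hl : l ≠ 2) (i : ℕ) (D a : ℤ) (w : ℤ_[l]) (z : ℚ_[l])
    (h1 : (D : ℚ_[l]) * z = (a : ℚ_[l])) (h2 : 2 * z = (w : ℚ_[l])) (hD : ((l : ℤ) ^ i) ∣ D) :
    ((l : ℤ) ^ i) ∣ a := by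
  have h3 : (((2 * a : ℤ)) : ℤ_[l]) = ((D : ℤ) : ℤ_[l]) * w := by
    apply Subtype.ext
    have e : ((2 * a : ℤ) : ℚ_[l]) = (D : ℚ_[l]) * (w : ℚ_[l]) := by
      rw [← h2, Int.cast_mul, ← h1]
      push_cast
      ring
    rw [PadicInt.coe_mul, PadicInt.coe_intCast, PadicInt.coe_intCast]
    exact e
  have h4 : ‖(((2 * a : ℤ)) : ℤ_[l])‖ ≤ (l : ℝ) ^ (-i : ℤ) := by
    rw [h3, norm_mul]
    have h5 := PadicInt.norm_int_le_pow_iff_dvd.2 hD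
    calc ‖((D : ℤ) : ℤ_[l])‖ * ‖w‖ ≤ (l : ℝ) ^ (-i : ℤ) * 1 :=
          mul_le_mul h5 (PadicInt.norm_le_one w) (norm_nonneg _) (by positivity)
      _ = _ := mul_one _
  have h6 := PadicInt.norm_int_le_pow_iff_dvd.1 h4
  have h7 : IsCoprime ((l : ℤ) ^ i) 2 := by
    have h8 : Nat.Coprime (l ^ i) 2 :=
      Nat.Coprime.pow_left i ((Nat.coprime_primes (Fact.out : l.Prime) Nat.prime_two).2 hl)
    have h9 := Nat.isCoprime_iff_coprime.2 h8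
    push_cast at h9
    exact h9
  exact h7.dvd_of_dvd_mul_left h6

/-- integral entries of the matrix give integral coordinates, up to the factor two -/
lemma TRIV_two (l : ℕ) [Fact l.Prime] (x y : ℤ_[l]) (hxy : IsSpl l x y) (z : ℍ[ℚ_[l]])
    (B : Fin 2 → Fin 2 → ℤ_[l]) (hB : ∀ i j, matQ (x : ℚ_[l]) (y : ℚ_[l]) z i j = (B i j : ℚ_[l])) :
    (∃ w : ℤ_[l], 2 * z.re = (w : ℚ_[l])) ∧ (∃ w : ℤ_[l], 2 * z.imI = (w : ℚ_[l])) ∧
    (∃ w : ℤ_[l], 2 * z.imJ = (w : ℚ_[l])) ∧ (∃ w : ℤ_[l], 2 * z.imK = (w : ℚ_[l])) := by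
  have hc := hxy.coe
  have h00 := hB 0 0
  have h01 := hB 0 1
  have h10 := hB 1 0
  have h11 := hB 1 1
  simp only [matQ, Matrix.of_apply, Matrix.cons_val', Matrix.cons_val_zero, Matrix.cons_val_one,
    Matrix.cons_val_fin_one] at h00 h01 h10 h11
  refine ⟨⟨B 0 0 + B 1 1, ?_⟩, ⟨-((B 0 0 - B 1 1) * x + (B 0 1 + B 1 0) * y), ?_⟩,
    ⟨B 0 1 - B 1 0, ?_⟩, ⟨-((B 0 1 + B 1 0) * x - (B 0 0 - B 1 1) * y), ?_⟩⟩
  · push_cast
    rw [← h00, ← h11]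
    ring
  · push_cast
    rw [← h00, ← h11, ← h01, ← h10]
    linear_combination (2 * z.imI) * hc
  · push_cast
    rw [← h01, ← h10]
    ring
  · push_cast
    rw [← h00, ← h11, ← h01, ← h10]
    linear_combination (2 * z.imK) * hc

lemma TRIV_emb {R : Type} [CommRing R] (l : ℕ) [Fact l.Prime] (f : R →+* ℚ_[l]) (x y : ℤ_[l])
    (hxy : IsSpl l x y) (γ : unitary ℍ[R]) (hγ : embf f hxy γ ∈ KK l) :
    (∃ w : ℤ_[l], 2 * f (γ : ℍ[R]).re = (w : ℚ_[l])) ∧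
    (∃ w : ℤ_[l], 2 * f (γ : ℍ[R]).imI = (w : ℚ_[l])) ∧
    (∃ w : ℤ_[l], 2 * f (γ : ℍ[R]).imJ = (w : ℚ_[l])) ∧
    (∃ w : ℤ_[l], 2 * f (γ : ℍ[R]).imK = (w : ℚ_[l])) := by
  obtain ⟨B, hB⟩ := hγ
  have h1 : ∀ i j, matQ (x : ℚ_[l]) (y : ℚ_[l]) (TauQ.qmap f (γ : ℍ[R])) i j =
      ((B : Matrix (Fin 2) (Fin 2) ℤ_[l]) i j : ℚ_[l]) := by
    intro i j
    have h2 := congrArg (fun X : Matrix.SpecialLinearGroup (Fin 2) ℚ_[l] =>
      (X : Matrix (Fin 2) (Fin 2) ℚ_[l]) i j) hB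
    exact h2.symm
  exact TRIV_two l x y hxy _ _ h1

/-- a prime dividing a unit of `Z[1/n]` divides `n` -/
lemma TRIV_prime (n : ℕ) (R : Type) [CommRing R] [IsLocalization.Away (n : ℤ) R] (d : ℤ)
    (hd : IsUnit ((d : ℤ) : R)) (l : ℕ) (hl : l.Prime) (hld : (l : ℤ) ∣ d) : l ∣ n := by
  have h1 : IsUnit (algebraMap ℤ R d) := by rwa [eq_intCast]
  obtain ⟨k, hk⟩ := (IsLocalization.Away.algebraMap_isUnit_iff (S := R) (n : ℤ)).1 h1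
  have h2 : (l : ℤ) ∣ (n : ℤ) ^ k := hld.trans hk
  have h3 := (Nat.prime_iff_prime_int.1 hl).dvd_of_dvd_pow h2
  exact_mod_cast h3

/-- divisibility from all prime powers -/
lemma TRIV_pow (d a : ℤ) (h : ∀ (l i : ℕ), l.Prime → ((l : ℤ) ^ i) ∣ d → ((l : ℤ) ^ i) ∣ a) :
    d ∣ a := by
  rw [← Int.natAbs_dvd_natAbs, Nat.dvd_iff_prime_pow_dvd_dvd]
  intro l i hl hd
  have h1 : ((l : ℤ) ^ i) ∣ d := by
    rw [← Int.natAbs_dvd_natAbs, Int.natAbs_pow, Int.natAbs_natCast]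
    exact hd
  have h2 := h l i hl h1
  rw [← Int.natAbs_dvd_natAbs, Int.natAbs_pow, Int.natAbs_natCast] at h2
  exact h2

theorem TRIV_thm : N_TRIV := by
  intro n p _ hn h2n hpn R _ _ f0 x0 y0 h0 f x y hxy γ h1 h2
  have hp : p.Prime := Fact.out
  obtain ⟨D, α, hD4, hDu, hα, hγα⟩ := γ.2
  obtain ⟨c1, c2, c3, c4⟩ := TRIV_comp D _ α hγα
  obtain ⟨⟨w1, e1⟩, ⟨w2, e2⟩, ⟨w3, e3⟩, ⟨w4, e4⟩⟩ := TRIV_emb p f0 x0 y0 h0 _ h1
  have h3 : ∀ l : Pr n p, (∃ w : ℤ_[l.1], 2 * f l ((γ : unitary ℍ[R]) : ℍ[R]).re = (w : ℚ_[l.1])) ∧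
      (∃ w : ℤ_[l.1], 2 * f l ((γ : unitary ℍ[R]) : ℍ[R]).imI = (w : ℚ_[l.1])) ∧
      (∃ w : ℤ_[l.1], 2 * f l ((γ : unitary ℍ[R]) : ℍ[R]).imJ = (w : ℚ_[l.1])) ∧
      (∃ w : ℤ_[l.1], 2 * f l ((γ : unitary ℍ[R]) : ℍ[R]).imK = (w : ℚ_[l.1])) := by
    intro l
    exact TRIV_emb l.1 (f l) (x l) (y l) (hxy l) _ (mem_KBn ⟨_, h2⟩ l)
  have key : ∀ (a : ℤ) (t : R) (w : ℤ_[p]), (D : R) * t = ((a : ℤ) : R) →
      2 * f0 t = (w : ℚ_[p]) → (∀ l : Pr n p, ∃ v : ℤ_[l.1], 2 * f l t = (v : ℚ_[l.1])) →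
      D ∣ a := by
    intro a t w ht hw hv
    apply TRIV_pow
    intro l i hl hli
    rcases Nat.eq_zero_or_pos i with hi | hi
    · subst hi; simp
    have hlD : (l : ℤ) ∣ D := (dvd_pow_self _ hi.ne').trans hli
    have hln : l ∣ n := TRIV_prime n R D hDu l hl hlD
    by_cases hlp : l = p
    · subst hlp
      have g1 := congrArg f0 ht
      rw [map_mul, map_intCast, map_intCast] at g1
      exact TRIV_dvd l (h2n l hl hln) i D a w _ g1 hw hli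
    · obtain ⟨v, hv'⟩ := hv ⟨l, hl, hln, hlp⟩
      have g1 := congrArg (f ⟨l, hl, hln, hlp⟩) ht
      rw [map_mul, map_intCast, map_intCast] at g1
      haveI : Fact l.Prime := ⟨hl⟩
      exact TRIV_dvd l (h2n l hl hln) i D a v _ g1 hv' hli
  obtain ⟨b1, hb1⟩ := key _ _ _ c1 e1 (fun l => (h3 l).1)
  obtain ⟨b2, hb2⟩ := key _ _ _ c2 e2 (fun l => (h3 l).2.1)
  obtain ⟨b3, hb3⟩ := key _ _ _ c3 e3 (fun l => (h3 l).2.2.1)
  obtain ⟨b4, hb4⟩ := key _ _ _ c4 e4 (fun l => (h3 l).2.2.2)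
  obtain ⟨β, hβ⟩ : ∃ β : ℍ[ℤ], β = TauQ.mk4 b1 b2 b3 b4 := ⟨_, rfl⟩
  have hαβ : α = (D : ℍ[ℤ]) * β := by
    rw [hβ]
    ext
    · simp [hb1]
    · simp [hb2]
    · simp [hb3]
    · simp [hb4]
  have hγβ : ((γ : unitary ℍ[R]) : ℍ[R]) = castn R β := by
    apply TRIV_cancel D hDu
    rw [hγα, hαβ, map_mul, map_intCast]
  have hnorm : Quaternion.normSq β = 1 := by
    have g1 : Quaternion.normSq ((γ : unitary ℍ[R]) : ℍ[R]) = 1 :=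
      (TauQ.mem_unitary_iff _).1 (γ : unitary ℍ[R]).2
    rw [hγβ, castn, TauQ.normSq_qmap, eq_intCast] at g1
    have g2 := congrArg f0 g1
    rw [map_intCast, map_one] at g2
    exact_mod_cast g2
  rw [Quaternion.normSq_def'] at hnorm
  have hb : b1 ^ 2 + b2 ^ 2 + b3 ^ 2 + b4 ^ 2 = 1 := by
    rw [hβ] at hnorm
    simpa using hnorm
  obtain ⟨m1, -, -, -⟩ := hα
  have hm : (D * b1) % 4 = 1 := by rw [← hb1]; exact m1
  have hb1m : b1 % 4 = 1 := by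
    rw [Int.mul_emod, hD4] at hm
    omega
  have hb1le : b1 ≤ 1 := by nlinarith [sq_nonneg b2, sq_nonneg b3, sq_nonneg b4, sq_nonneg (b1 - 1)]
  have hb1ge : -1 ≤ b1 := by nlinarith [sq_nonneg b2, sq_nonneg b3, sq_nonneg b4, sq_nonneg (b1 + 1)]
  have hb1e : b1 = 1 := by omega
  have hrest : b2 ^ 2 + b3 ^ 2 + b4 ^ 2 = 0 := by rw [hb1e] at hb; linarith
  have hb2e : b2 = 0 := by
    have : b2 ^ 2 = 0 := by nlinarith [sq_nonneg b2, sq_nonneg b3, sq_nonneg b4]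
    exact pow_eq_zero_iff (two_ne_zero) |>.1 this
  have hb3e : b3 = 0 := by
    have : b3 ^ 2 = 0 := by nlinarith [sq_nonneg b2, sq_nonneg b3, sq_nonneg b4]
    exact pow_eq_zero_iff (two_ne_zero) |>.1 this
  have hb4e : b4 = 0 := by
    have : b4 ^ 2 = 0 := by nlinarith [sq_nonneg b2, sq_nonneg b3, sq_nonneg b4]
    exact pow_eq_zero_iff (two_ne_zero) |>.1 this
  have hβ1 : β = 1 := by
    rw [hβ, hb1e, hb2e, hb3e, hb4e]
    ext <;> simp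
  apply Subtype.ext
  apply Subtype.ext
  show ((γ : unitary ℍ[R]) : ℍ[R]) = 1
  rw [hγβ, hβ1, map_one]

end TauSN
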