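import Mathlib
import Pool.Agent.Work.MP_972ac7_sn.Interface
import Pool.Agent.Work.MP_972ac7_sg.UNIM
set_option autoImplicit false

/-! Block UNI: the product of the `SL2(ℚ_l)` is unimodular. -/

open MeasureTheory
open scoped NNReal

namespace TauSN

open TauSG

/-- a homomorphism from `SL2` of a field of characteristic zero to `ℝ≥0` without zeros is trivial -/
theorem UNI_triv (hG : S_GEN) (k : Type) [Field k] [CharZero k]
    (χ : Matrix.SpecialLinearGroup (Fin 2) k →* ℝ≥0) (hpos : ∀ g, χ g ≠ 0)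
    (g : Matrix.SpecialLinearGroup (Fin 2) k) : χ g = 1 := by
  have h2 : (2 : k) ≠ 0 := two_ne_zero
  have h3 : (3 : k) ≠ 0 := three_ne_zero
  have hu : ∀ t : k, χ (upp t) = 1 := by
    intro t
    have e := congrArg χ (UNIM_upp (t / 3) h2)
    rw [mul_div_cancel₀ t h3, map_mul, map_mul, map_mul, mul_comm (χ (upp (t / 3)))] at e
    have hne : χ (UNIM_dg 2 h2) * χ (upp (t / 3)) ≠ 0 := mul_ne_zero (hpos _) (hpos _)
    exact mul_right_cancel₀ hne (by rw [one_mul]; exact e.symm)
  have hl : ∀ t : k, χ (low t) = 1 := by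
    intro t
    have e := congrArg χ (UNIM_low (t / 3) h2)
    rw [mul_div_cancel₀ t h3, map_mul, map_mul, map_mul, mul_comm (χ (low (t / 3)))] at e
    have hne : χ (UNIM_dg 2 h2) * χ (low (t / 3)) ≠ 0 := mul_ne_zero (hpos _) (hpos _)
    exact mul_left_cancel₀ hne (by rw [mul_one]; exact e.symm)
  have hker : χ.ker = ⊤ := by
    rw [eq_top_iff, ← hG k, Subgroup.closure_le]
    rintro g ⟨t, rfl | rfl⟩
    · exact hu t
    · exact hl t
  have : g ∈ χ.ker := by rw [hker]; exact Subgroup.mem_top g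
  exact this

theorem UNI_thm (hG : S_GEN) (hT : N_TOP) : N_UNI := by
  intro n p hn μ hμ
  obtain ⟨i0, i1, i2, i3, i4, -, -⟩ := hT n p hn
  set χ : GBn n p →* ℝ≥0 := Measure.modularCharacter with hχ
  have hpos : ∀ g, χ g ≠ 0 := fun g => (Measure.modularCharacterFun_pos g).ne'
  classical
  have hone : ∀ g : GBn n p, g ∈ χ.ker := by
    intro g
    apply Subgroup.pi_mem_of_mulSingle_mem g
    intro l
    have := UNI_triv hG ℚ_[l.1] (χ.comp (MonoidHom.mulSingle
      (fun l : Pr n p => Matrix.SpecialLinearGroup (Fin 2) ℚ_[l.1]) l)) (fun g => hpos _) (g l)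
    exact this
  constructor
  intro g
  have hg : Measure.modularCharacterFun g = 1 := hone g
  rw [Measure.map_right_mul_eq_modularCharacterFun_smul μ g, hg, one_smul]

end TauSN
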