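import Mathlib
import Pool.Agent.Work.MP_972ac7_sg.All
import Pool.Agent.Work.MP_972ac7_sn.INT
import Pool.Agent.Work.MP_972ac7_sn.PAIR
import Pool.Agent.Work.MP_972ac7_sn.COV1
import Pool.Agent.Work.MP_972ac7_sn.COV
import Pool.Agent.Work.MP_972ac7_sn.TRIV
import Pool.Agent.Work.MP_972ac7_sn.LEV
import Pool.Agent.Work.MP_972ac7_sn.FULL
import Pool.Agent.Work.MP_972ac7_sn.GAPA
import Pool.Agent.Work.MP_972ac7_sn.IDXA
import Pool.Agent.Work.MP_972ac7_sn.GOU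
import Pool.Agent.Work.MP_972ac7_sn.PG
import Pool.Agent.Work.MP_972ac7_sn.LEVP
import Pool.Agent.Work.MP_972ac7_sn.IDXB
import Pool.Agent.Work.MP_972ac7_sn.TOP
import Pool.Agent.Work.MP_972ac7_sn.UNI
import Pool.Agent.Work.MP_972ac7_sn.NOFD
import Pool.Agent.Work.MP_972ac7_sn.CTR
import Pool.Agent.Work.MP_972ac7_sn.FIX
import Pool.Agent.Work.MP_972ac7_sn.HSG

namespace TauSN

open TauSG

theorem n_TOP : N_TOP := TOP_thm TOPL_thm
theorem n_COV : N_COV := COV_thm (COV1_thm TauO.EX_thm) INT_thm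
theorem n_FULL : N_FULL :=
  FULL_thm a_IDX TauSG.LEV_thm TauSG.PAIR_thm a_WORD TauSG.INT_thm ONE_thm a_NOFD TOPL_thm a_COV
    TauSG.TRIV_thm SPL_thm
theorem n_GAPA : N_GAPA := GAPA_thm a_IDX n_FULL LEV_thm PAIR_thm INT_thm
theorem n_IDXA : N_IDXA := IDXA_thm n_FULL LEV_thm PAIR_thm INT_thm
theorem n_IDXB : N_IDXB := IDXB_thm n_FULL LEV_thm PAIR_thm INT_thm GOU_thm PG_thm LEVP_thm
theorem n_UNI : N_UNI := UNI_thm GEN_thm n_TOP
theorem n_NOFD : N_NOFD := NOFD_thm a_NOFD n_TOP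
theorem n_CTR : N_CTR := CTR_thm GEN_thm
theorem n_HSG : N_HSG :=
  HSG_thm DISC_thm a_MEA ONE_thm a_SG TOPL_thm a_NOFD a_UNIM SPL_thm n_TOP n_UNI n_NOFD n_COV
    TRIV_thm n_GAPA n_IDXB n_IDXA

end TauSN
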