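import Mathlib
import Pool.Agent.Work.MP_972ac7_sn.All
import Pool.Agent.Work.MP_972ac7_od.Final
import Pool.Agent.Work.MP_972ac7_C.Gap

/-!
# Uniform gap in all finite von Neumann algebra representations for the quaternion lattices
-/

open MeasureTheory Pool.TFD Pool.TC
open scoped Quaternion BigOperators ENNReal

namespace TauSN

open TauSG

/-- the gap for the lattice `G1n R`, `R = ℤ[1/m]`, `m` odd -/
lemma gap_G1n (m : ℕ) (h4 : ∀ l : ℕ, l.Prime → l ∣ m → l ≠ 2)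
    (h2 : ∃ p q : ℕ, p.Prime ∧ q.Prime ∧ p ≠ q ∧ p ∣ m ∧ q ∣ m) (R : Type) [CommRing R]
    (hR : IsLocalization.Away (m : ℤ) R) : FTGap (G1n R) := by
  obtain ⟨p, q, hp, hq, hpq, hpm, hqm⟩ := h2
  have hm : m ≠ 0 := by
    rintro rfl
    exact h4 2 Nat.prime_two (dvd_zero 2) rfl
  have ip : Fact p.Prime := ⟨hp⟩
  obtain ⟨T, μ, hinj, hd, hpr, hinv, -, hβ, hgap⟩ := n_HSG m p hm h4 hpm ⟨q, hq, hqm, hpq.symm⟩ R
  have i1 := (TOPL_thm p).1
  have i2 := (TOPL_thm p).2.1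
  have i3 := (TOPL_thm p).2.2.1
  have j1 := (n_TOP m p hm).2.1
  have j2 := (n_TOP m p hm).2.2.1
  have j3 := (n_TOP m p hm).2.2.2.1
  have j4 := (n_TOP m p hm).2.2.2.2.1
  have hdense : Dense (Set.range fun γ : T.Γ =>
      (γ : Matrix.SpecialLinearGroup (Fin 2) ℚ_[p] × GBn m p).2) := by
    refine hβ.mono ?_
    rintro _ ⟨γ, rfl⟩
    exact ⟨⟨(T.α.prod T.β) γ, ⟨γ, rfl⟩⟩, rfl⟩
  have e : G1n R ≃* T.Γ := MonoidHom.ofInjective hinj
  have h := allC _ _ T.Γ μ hd hpr hinv hdense (n_CTR.1 p) (n_CTR.2 m p hm) hgap (G1n R) ⊤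
    (e.symm.toMonoidHom.comp (⊤ : Subgroup T.Γ).subtype) inferInstance (by
      have : (e.symm.toMonoidHom.comp (⊤ : Subgroup T.Γ).subtype).range = ⊤ := by
        rw [MonoidHom.range_eq_top]
        intro γ
        exact ⟨⟨e γ, trivial⟩, e.symm_apply_apply γ⟩
      rw [this]
      infer_instance)
  exact h.1

theorem gap_aux2 (k m : ℕ) (hm : Odd m) (h4 : ∀ l : ℕ, l.Prime → l ∣ m → l ≠ 2)
    (h2 : ∃ p q : ℕ, p.Prime ∧ q.Prime ∧ p ≠ q ∧ p ∣ m ∧ q ∣ m) (R S : Type) [CommRing R]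
    [CommRing S] (hR : IsLocalization.Away (m : ℤ) R)
    (hS : IsLocalization.Away ((2 ^ k * m : ℕ) : ℤ) S) : FTGap (unitary ℍ[S]) := by
  have h5 := gap_G1n m h4 h2 R hR
  have h6 : FTGap (unitary ℍ[R]) := allC_over _ (G1n R) (FIX_thm m h4 R) h5
  obtain ⟨f, hf⟩ := TauO.EV_thm m k hm R S
  exact allC_over _ f.range hf (p_QUF _ _ f.rangeRestrict f.rangeRestrict_surjective h6)

theorem gap_aux (n : ℕ) (hn : n ≠ 0)
    (h2 : ∃ p q : ℕ, p.Prime ∧ q.Prime ∧ p ≠ 2 ∧ q ≠ 2 ∧ p ≠ q ∧ p ∣ n ∧ q ∣ n)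
    (S : Type) [CommRing S] (hS : IsLocalization.Away (n : ℤ) S) : FTGap (unitary ℍ[S]) := by
  obtain ⟨k, m, hm, hnm⟩ := Nat.exists_eq_two_pow_mul_odd hn
  obtain ⟨p, q, hp, hq, hp2, hq2, hpq, hpn, hqn⟩ := h2
  have key : ∀ l : ℕ, l.Prime → l ≠ 2 → l ∣ n → l ∣ m := by
    intro l hl hl2 hln
    rw [hnm] at hln
    rcases (Nat.Prime.dvd_mul hl).1 hln with h | h
    · exfalso
      have := hl.dvd_of_dvd_pow h
      exact hl2 ((Nat.prime_dvd_prime_iff_eq hl Nat.prime_two).1 this)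
    · exact h
  have h4 : ∀ l : ℕ, l.Prime → l ∣ m → l ≠ 2 := by
    rintro l - hlm rfl
    obtain ⟨t, ht⟩ := hm
    omega
  have hS' : IsLocalization.Away ((2 ^ k * m : ℕ) : ℤ) S := by rw [← hnm]; exact hS
  exact gap_aux2 k m hm h4 ⟨p, q, hp, hq, hpq, key p hp hp2 hpn, key q hq hq2 hqn⟩
    (Localization.Away (m : ℤ)) S (TauO.away_inst m) hS'

/-- The uniform gap in all finite von Neumann algebra representations, and property tau, for all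
groups commensurable (up to kernels) with the norm one Hamilton quaternions over `ℤ[1/n]`. -/
theorem gap_all (n : ℕ) (hn : n ≠ 0)
    (h2 : ∃ p q : ℕ, p.Prime ∧ q.Prime ∧ p ≠ 2 ∧ q ≠ 2 ∧ p ≠ q ∧ p ∣ n ∧ q ∣ n)
    (B : Subgroup (TauO.NormOneQuaternions (Localization.Away (n : ℤ)))) (hB : B.FiniteIndex)
    (Γ : Type) [Group Γ] (f : B →* Γ) (hf : f.range.FiniteIndex) :
    TracialGap Γ ∧ PropTau Γ := by
  have h := allC_comm _ Γ B hB f hf (gap_aux n hn h2 (Localization.Away (n : ℤ))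
    (TauO.away_inst n))
  exact ⟨tracialGap_of_FTGap Γ h, p_TAU Γ (p_FTF Γ h)⟩

end TauSN
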