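import Pool.Agent.Work.MP_972ac7_sn.Interface

/-! # Block GOU: a Goursat type index bound for finite groups (helper46) -/

set_option autoImplicit false

namespace TauSN

section GOU

variable {I : Type} [Fintype I] [DecidableEq I] {Q : I → Type} [∀ i, Group (Q i)]

theorem GOU_card (H : ∀ i, Subgroup (Q i)) :
    Nat.card (Subgroup.pi Set.univ H) = ∏ i, Nat.card (H i) := by
  rw [← Nat.card_pi]
  refine Nat.card_congr
    { toFun := fun x i => ⟨x.1 i, x.2 i (Set.mem_univ i)⟩
      invFun := fun y => ⟨fun i => (y i : Q i), fun i _ => (y i).2⟩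
      left_inv := fun x => rfl
      right_inv := fun y => rfl }

theorem GOU_index [∀ i, Finite (Q i)] (H : ∀ i, Subgroup (Q i)) :
    (Subgroup.pi Set.univ H).index = ∏ i, (H i).index := by
  have h1 := (Subgroup.pi Set.univ H).card_mul_index
  rw [GOU_card, Nat.card_pi] at h1
  have h2 : ∏ i, Nat.card (Q i) = (∏ i, Nat.card (H i)) * ∏ i, (H i).index := by
    rw [← Finset.prod_mul_distrib]
    exact Finset.prod_congr rfl fun i _ => ((H i).card_mul_index).symm
  rw [h2] at h1
  refine Nat.eq_of_mul_eq_mul_left ?_ h1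
  exact Finset.prod_pos fun i _ => Nat.card_pos

/-- the components of an element of `E` are in `E` -/
theorem GOU_comp [∀ i, Finite (Q i)] (v : I → ℕ) (hv : ∀ i, (v i).Prime)
    (hinj : Function.Injective v) (V : ∀ i, Subgroup (Q i)) (hp : ∀ i, IsPGroup (v i) (V i))
    (E : Subgroup (∀ i, Q i)) (hE : ∀ e ∈ E, ∀ i, e i ∈ V i) (e : ∀ i, Q i) (he : e ∈ E) (i : I) :
    Pi.mulSingle i (e i) ∈ E := by
  have hk : ∀ j, ∃ k : ℕ, orderOf (e j) = v j ^ k := by
    intro j
    haveI : Fact (v j).Prime := ⟨hv j⟩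
    obtain ⟨k, hk⟩ := (IsPGroup.iff_orderOf.mp (hp j)) ⟨e j, hE e he j⟩
    refine ⟨k, ?_⟩
    rw [← hk]
    exact (Subgroup.orderOf_mk _ _).symm
  choose k hk using hk
  set N : ℕ := ∏ j ∈ Finset.univ.erase i, orderOf (e j) with hN
  have hco : Nat.Coprime (orderOf (e i)) N := by
    rw [hN]
    refine Nat.Coprime.prod_right fun j hj => ?_
    rw [hk i, hk j]
    refine Nat.Coprime.pow _ _ ?_
    rw [Nat.coprime_primes (hv i) (hv j)]
    exact fun h => (Finset.ne_of_mem_erase hj) (hinj h).symm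
  obtain ⟨m, hm1, hm2⟩ := Nat.chineseRemainder hco 1 0
  have h1 : e ^ m = Pi.mulSingle i (e i) := by
    funext j
    rw [Pi.pow_apply]
    by_cases hj : j = i
    · subst hj
      rw [Pi.mulSingle_eq_same]
      have := (pow_eq_pow_iff_modEq (x := e j) (n := m) (m := 1)).2 hm1
      rw [this, pow_one]
    · rw [Pi.mulSingle_eq_of_ne hj]
      have h2 : orderOf (e j) ∣ m := by
        have h3 : orderOf (e j) ∣ N :=
          Finset.dvd_prod_of_mem _ (Finset.mem_erase.2 ⟨hj, Finset.mem_univ j⟩)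
        exact h3.trans ((Nat.modEq_zero_iff_dvd).1 hm2)
      exact orderOf_dvd_iff_pow_eq_one.1 h2
  rw [← h1]
  exact E.pow_mem he m

end GOU

theorem GOU_thm : N_GOU := by
  intro I _ _ v hv hinj Q _ _ V c hN hp hidx D hD
  set P : Subgroup (∀ i, Q i) := Subgroup.pi Set.univ V with hP
  set E : Subgroup (∀ i, Q i) := D ⊓ P with hEdef
  set C : ℕ := ∏ i, c i with hC
  have hEV : ∀ e ∈ E, ∀ i, e i ∈ V i := fun e he i => he.2 i (Set.mem_univ i)
  set Ei : ∀ i, Subgroup (Q i) := fun i => E.map (Pi.evalMonoidHom Q i) with hEi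
  have hEpi : E = Subgroup.pi Set.univ Ei := by
    apply le_antisymm
    · intro e he i _
      exact ⟨e, he, rfl⟩
    · intro x hx
      refine Subgroup.pi_mem_of_mulSingle_mem x fun i => ?_
      obtain ⟨e, he, h1⟩ := hx i (Set.mem_univ i)
      have h2 : e i = x i := h1
      rw [← h2]
      exact GOU_comp v hv hinj V hp E hEV e he i
  haveI hPn : P.Normal := by
    constructor
    intro x hx g i _
    exact (hN i).conj_mem (x i) (hx i (Set.mem_univ i)) (g i)
  have hPi : P.index ≤ C := by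
    rw [hP, GOU_index, hC]
    exact Finset.prod_le_prod' fun i _ => hidx i
  have hED : E.relIndex D ≤ C := by
    rw [hEdef, Subgroup.inf_relIndex_left]
    refine (Nat.le_of_dvd ?_ (Subgroup.relIndex_dvd_index_of_normal P D)).trans hPi
    exact Nat.pos_of_ne_zero Subgroup.index_ne_zero_of_finite
  have hEiC : ∀ i, (Ei i).index ≤ C := by
    intro i
    let g : D →* Q i := (Pi.evalMonoidHom Q i).comp D.subtype
    have hg : Function.Surjective g := by
      intro x
      obtain ⟨d, hd, h1⟩ := hD i x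
      exact ⟨⟨d, hd⟩, h1⟩
    have hmap : (E.subgroupOf D).map g = Ei i := by
      ext x
      constructor
      · rintro ⟨d, hd, rfl⟩
        exact ⟨d.1, hd, rfl⟩
      · rintro ⟨e, he, rfl⟩
        exact ⟨⟨e, he.1⟩, he, rfl⟩
    have h1 := Subgroup.index_map_dvd (H := E.subgroupOf D) hg
    rw [hmap] at h1
    refine (Nat.le_of_dvd ?_ h1).trans hED
    exact Nat.pos_of_ne_zero Subgroup.index_ne_zero_of_finite
  have hDE : D.index ≤ E.index := by
    refine Nat.le_of_dvd (Nat.pos_of_ne_zero Subgroup.index_ne_zero_of_finite)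
      (Subgroup.index_dvd_of_le inf_le_left)
  refine hDE.trans ?_
  rw [hEpi, GOU_index]
  calc ∏ i, (Ei i).index ≤ ∏ _i : I, C := Finset.prod_le_prod' fun i _ => hEiC i
    _ = C ^ Fintype.card I := by rw [Finset.prod_const, Finset.card_univ]

end TauSN
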